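import Pool.Agent.H83.Bc.Free

/-! # The arcs `v → τ v` (MP_e7e1e7_co, helper83) -/

namespace Pool.Agent.H83.Bc

open Finset

set_option linter.unusedSectionVars false

variable {V : Type*} [DecidableEq V] {M : Nbh V} {f : V → ℕ} {𝓕 : Finset (Finset V)} {τ : V → V}

variable (M f 𝓕 τ) in
/-- the whole configuration -/
structure Cfg : Prop where
  H : Hyp M f
  X : MaxFam M f 𝓕
  tau : ∀ v, InW M f v → 0 < f (τ v) ∧ τ v ≠ v ∧ (∀ p ∈ P M f (τ v), M.W (f v + 1) p v) ∧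
    (Near M f v (τ v) ∨ ∀ p ∈ P M f v, ∀ p' ∈ P M f v, M.W 1 p' p)

theorem exists_cfg [Fintype V] (H : Hyp M f) : ∃ 𝓕 τ, Cfg M f 𝓕 τ := by
  classical
  obtain ⟨𝓕, h𝓕⟩ := exists_maxFam M f
  refine ⟨𝓕, fun v => if h : InW M f v then (H.exists_tau h).choose else v, H, h𝓕, ?_⟩
  intro v hv
  simp only [dif_pos hv]
  exact (H.exists_tau hv).choose_spec

namespace Cfg

variable (C : Cfg M f 𝓕 τ)
include C

theorem R_of_hears {v w x : V} (hv : R f 𝓕 v) (hw : 0 < f w) (h1 : M.W (f v) x v)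
    (h2 : M.W (f w) x w) : R f 𝓕 w := by
  refine ⟨hw, fun h => ?_⟩
  obtain ⟨F, hF, hwF⟩ := Finset.mem_biUnion.1 h
  exact C.X.no_overlap C.H hF hwF hv (M.trans (M.symm h2) h1)

theorem exists_point {v r : V} (hv : InW M f v) (hr : r ∈ P M f (τ v)) :
    ∃ x, M.W 1 r x ∧ M.W (f v) x v := by
  have h := (C.tau v hv).2.2.1 r hr
  rw [add_comm] at h
  exact M.split h

theorem arc_point {v r x : V} (hv : InW M f v) (hr : r ∈ P M f (τ v))
    (h1 : M.W 1 r x) (h2 : M.W (f v) x v) :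
    x ∈ P M f v ∨ ∃ w, 0 < f w ∧ w ≠ v ∧ M.W (f w) x w := by
  by_cases h : ∃ w, 0 < f w ∧ w ≠ v ∧ M.W (f w) x w
  · exact Or.inr h
  · left
    refine ⟨h2, fun h3 => ?_, fun w hw0 hwv hw => h ⟨w, hw0, hwv, hw⟩⟩
    refine hr.2.2 v hv.1 (Ne.symm (C.tau v hv).2.1) (M.tr h1 h3 ?_)
    have := hv.1
    omega

/-- elements with `τ v` in a free set: contact through `P v` -/
theorem near_fam {v c : V} {F : Finset V} (hvR : R f 𝓕 v) (hv : InW M f v) (hF : F ∈ 𝓕)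
    (ht : τ v ∈ F) (hc : CovB M f F (∑ a ∈ F, f a) c) :
    ∃ p ∈ P M f v, ∃ r ∈ P M f (τ v), M.W 1 p r ∧ M.W (∑ a ∈ F, f a) p c := by
  obtain ⟨r, hr⟩ := C.H.irr _ (C.tau v hv).1
  obtain ⟨x, h1, h2⟩ := C.exists_point hv hr
  obtain ⟨k, hk, hk'⟩ := hc _ ht
  have hxc : M.W (∑ a ∈ F, f a) x c := M.tr (M.tr (M.symm h1) hr.1 le_rfl) hk (by omega)
  rcases C.arc_point hv hr h1 h2 with h | ⟨w, hw0, hwv, hw⟩
  · exact ⟨x, h, r, hr, M.symm h1, hxc⟩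
  · exfalso
    exact C.X.hubF C.H hF hc hvR (C.R_of_hears hvR hw0 h2 hw) (Ne.symm hwv)
      (M.mono (by omega) h2) (M.mono (by omega) hw) hxc

theorem near_or_far {v : V} (hvR : R f 𝓕 v) (hv : InW M f v) (ht : R f 𝓕 (τ v)) :
    Near M f v (τ v) ∨ Far M f v (τ v) := by
  obtain ⟨r, hr⟩ := C.H.irr _ (C.tau v hv).1
  obtain ⟨x, h1, h2⟩ := C.exists_point hv hr
  rcases C.arc_point hv hr h1 h2 with h | ⟨w, hw0, hwv, hw⟩
  · exact Or.inl ⟨x, h, r, hr, M.symm h1⟩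
  · by_cases hwt : w = τ v
    · subst hwt
      exact Or.inr ⟨x, r, hr, h1, h2, hw⟩
    · exfalso
      exact C.X.H3 C.H hvR (C.R_of_hears hvR hw0 h2 hw) ht (Ne.symm hwv)
        (Ne.symm (C.tau v hv).2.1) hwt (M.mono (by omega) h2) (M.mono (by omega) hw)
        (M.tr (M.symm h1) hr.1 (by omega))

/-- `τ` is injective on the rest -/
theorem inj {v w : V} (hvR : R f 𝓕 v) (hv : InW M f v) (hwR : R f 𝓕 w) (hw : InW M f w)
    (ht : R f 𝓕 (τ v)) (h : τ v = τ w) : v = w := by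
  by_contra hne
  obtain ⟨r, hr⟩ := C.H.irr _ (C.tau v hv).1
  have hr' : r ∈ P M f (τ w) := h ▸ hr
  exact C.X.H3 C.H hvR hwR ht hne (Ne.symm (C.tau v hv).2.1)
    (h ▸ Ne.symm (C.tau w hw).2.1) ((C.tau v hv).2.2.1 r hr) ((C.tau w hw).2.2.1 r hr')
    (M.mono (by omega) hr.1)

/-- in-arc and near contact elsewhere is impossible -/
theorem in_near {w t : V} (hwR : R f 𝓕 w) (hw : InW M f w) (hvR : R f 𝓕 (τ w))
    (ht : R f 𝓕 t) (htw : t ≠ w) (htv : t ≠ τ w) (hn : Near M f (τ w) t) : False := by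
  obtain ⟨p, hp, r, hr, hpr⟩ := hn
  exact C.X.H3 C.H hwR hvR ht (Ne.symm (C.tau w hw).2.1) (Ne.symm htw) (Ne.symm htv)
    ((C.tau w hw).2.2.1 p hp) (M.mono (by omega) hp.1) (M.tr hpr hr.1 (by omega))

/-- an element with an in-arc has `τ` in the rest -/
theorem in_fam {w : V} (hwR : R f 𝓕 w) (hw : InW M f w) (hvR : R f 𝓕 (τ w))
    (hv : InW M f (τ w)) : R f 𝓕 (τ (τ w)) := by
  refine ⟨(C.tau _ hv).1, fun h => ?_⟩
  obtain ⟨F, hF, htF⟩ := Finset.mem_biUnion.1 h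
  obtain ⟨c, hc⟩ := (C.X.fam.1 F hF).2.2
  obtain ⟨p, hp, r, hr, h1, h2⟩ := C.near_fam hvR hv hF htF hc
  exact C.X.hubF C.H hF hc hwR hvR (Ne.symm (C.tau w hw).2.1) ((C.tau w hw).2.2.1 p hp)
    (M.mono (by omega) hp.1) h2

theorem contact {v : V} (hv : InW M f v) : M.W (f v + f (τ v) + 1) v (τ v) := by
  obtain ⟨r, hr⟩ := C.H.irr _ (C.tau v hv).1
  exact M.tr (M.symm ((C.tau v hv).2.2.1 r hr)) hr.1 (by omega)

end Cfg

end Pool.Agent.H83.Bc
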