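import Pool.Agent.H83.Bc.Srv

/-! # Free sets with attached elements (MP_e7e1e7_co, helper83) -/

namespace Pool.Agent.H83.Bc

open Finset

set_option linter.unusedSectionVars false

variable {V : Type*} [Fintype V] [DecidableEq V] {M : Nbh V} {f : V → ℕ}
  {𝓕 : Finset (Finset V)} {τ : V → V}

namespace Cfg

variable (C : Cfg M f 𝓕 τ)
include C

theorem attach {F : Finset V} {c : V} (hF : F ∈ 𝓕) (hc : CovB M f F (∑ a ∈ F, f a) c)
    (Y : Finset V) (hY : ∀ v ∈ Y, R f 𝓕 v ∧ InW M f v ∧ τ v ∈ F) :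
    ∃ c', M.W (∑ v ∈ Y, f v) c c' ∧ ∀ v ∈ Y,
      (∃ k, M.W k v c' ∧ k + f v ≤ ∑ a ∈ F, f a + ∑ v ∈ Y, f v) ∧
      (∀ y ∈ P M f v, M.W (∑ a ∈ F, f a + ∑ v ∈ Y, f v) y c') ∧
      ∀ u ∈ Uv M f v, M.W (∑ a ∈ F, f a + ∑ v ∈ Y, f v) u c' := by
  have hs2 : 2 ≤ ∑ a ∈ F, f a := by
    obtain ⟨a, ha⟩ := (C.X.fam.1 F hF).1
    have h1 := C.H.two a ((C.X.fam.1 F hF).2.1 a ha)
    have h2 := Finset.single_le_sum (f := f) (fun i _ => Nat.zero_le _) ha
    omega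
  induction Y using Finset.induction_on with
  | empty => exact ⟨c, by simpa using M.refl c, by simp⟩
  | insert v Y hv ih =>
    obtain ⟨c₁, h1, h2⟩ := ih (fun w hw => hY w (Finset.mem_insert_of_mem hw))
    obtain ⟨hvR, hvW, hvF⟩ := hY v (Finset.mem_insert_self _ _)
    obtain ⟨p, hp, r, hr, -, hpc⟩ := C.near_fam hvR hvW hF hvF hc
    rw [Finset.sum_insert hv]
    set s := ∑ a ∈ F, f a with hs
    set t := ∑ v ∈ Y, f v with ht
    have hfv := C.H.two v hvW.1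
    have hpc₁ : M.W (s + t) c₁ p := M.tr (M.symm h1) (M.symm hpc) (by omega)
    obtain ⟨c₂, g1, g2, g3, g4⟩ := M.pos3 (s := f v) hpc₁ (M.refl p) hp.1 (by omega)
    refine ⟨c₂, M.tr h1 g1 (by omega), ?_⟩
    intro w hw
    rcases Finset.mem_insert.1 hw with rfl | hw
    · exact ⟨⟨_, g4, by omega⟩, near_cover' hvW hp g3 (by omega)⟩
    · obtain ⟨⟨k, hk, hk'⟩, h3, h4⟩ := h2 w hw
      exact ⟨⟨k + f v, M.trans hk g1, by omega⟩, fun y hy => M.tr (h3 y hy) g1 (by omega),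
        fun u hu => M.tr (h4 u hu) g1 (by omega)⟩

theorem sv_attach {F : Finset V} (hF : F ∈ 𝓕) (Y : Finset V)
    (hY : ∀ v ∈ Y, R f 𝓕 v ∧ InW M f v ∧ τ v ∈ F) : Sv M f (F ∪ Y) ∅ := by
  obtain ⟨hne, hpos, c, hc⟩ := C.X.fam.1 F hF
  obtain ⟨c', h1, h2⟩ := C.attach hF hc Y hY
  have hd : Disjoint F Y := by
    rw [Finset.disjoint_left]
    intro a ha haY
    exact (hY a haY).1.2 (Finset.mem_biUnion.2 ⟨F, hF, ha⟩)
  have hsum := Finset.sum_union (f := f) hd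
  refine sv_ball C.H (c := c') (hne.mono Finset.subset_union_left) (by simp) ?_ ?_ (by simp) ?_
  · intro a ha
    rcases Finset.mem_union.1 ha with h | h
    · exact hpos a h
    · exact (hY a h).1.1
  · intro a ha _
    rw [hsum]
    rcases Finset.mem_union.1 ha with h | h
    · obtain ⟨k, hk, hk'⟩ := hc a h
      exact ⟨_, M.trans hk h1, by omega⟩
    · exact (h2 a h).1
  · intro a ha
    rw [hsum]
    rcases Finset.mem_union.1 ha with h | h
    · obtain ⟨k, hk, hk'⟩ := hc a h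
      exact Or.inl ⟨_, M.trans hk h1, by omega⟩
    · exact Or.inr (h2 a h).2

end Cfg

end Pool.Agent.H83.Bc
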