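import Mathlib

/-! # Broadcasts: abstract distance relations and merging lemmas (MP_e7e1e7_co, helper83) -/

namespace Pool.Agent.H83.Bc

/-- An abstract graph-like distance on `V`: `W n u v` means that the distance is at most `n`. -/
structure Nbh (V : Type*) where
  W : ℕ → V → V → Prop
  refl : ∀ v, W 0 v v
  symm : ∀ {n u v}, W n u v → W n v u
  mono : ∀ {m n u v}, m ≤ n → W m u v → W n u v
  trans : ∀ {m n u v w}, W m u v → W n v w → W (m + n) u w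
  split : ∀ {m n u w}, W (m + n) u w → ∃ v, W m u v ∧ W n v w

namespace Nbh

variable {V : Type*} (M : Nbh V)

theorem split' {k m : ℕ} {u w : V} (h : M.W k u w) (hm : m ≤ k) :
    ∃ v, M.W m u v ∧ M.W (k - m) v w := by
  have : m + (k - m) = k := by omega
  rw [← this] at h
  exact M.split h

theorem tr {m n k : ℕ} {u v w : V} (h : M.W m u v) (h' : M.W n v w) (hk : m + n ≤ k) :
    M.W k u w := M.mono hk (M.trans h h')

/-- hub lemma, one ball is large -/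
theorem hubA {h x y z : V} {a b c da db dc ma mb mc : ℕ} (hb : 2 ≤ b) (hc : 2 ≤ c)
    (Wa : M.W da h x) (Wb : M.W db h y) (Wc : M.W dc h z)
    (ea : da + ma ≤ a + 2) (eb : db + mb ≤ b + 2) (ec : dc + mc ≤ c + 2) (hma : ma ≤ 2)
    (hlt : b + c < a + 2) :
    ∃ p ka kb kc, M.W ka x p ∧ M.W kb y p ∧ M.W kc z p ∧ ka + a + ma ≤ a + b + c ∧
      kb + b + mb ≤ a + b + c ∧ kc + c + mc ≤ a + b + c := by
  by_cases hd : a + 2 - (b + c) ≤ da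
  · obtain ⟨p, h1, h2⟩ := M.split' Wa hd
    refine ⟨p, da - (a + 2 - (b + c)), db + (a + 2 - (b + c)), dc + (a + 2 - (b + c)),
      M.symm h2, M.trans (M.symm Wb) h1, M.trans (M.symm Wc) h1, ?_, ?_, ?_⟩ <;> omega
  · refine ⟨x, 0, db + da, dc + da, M.refl x, M.trans (M.symm Wb) Wa, M.trans (M.symm Wc) Wa,
      ?_, ?_, ?_⟩ <;> omega

/-- hub lemma -/
theorem hub {h x y z : V} {a b c da db dc ma mb mc : ℕ} (ha : 2 ≤ a) (hb : 2 ≤ b) (hc : 2 ≤ c)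
    (Wa : M.W da h x) (Wb : M.W db h y) (Wc : M.W dc h z)
    (ea : da + ma ≤ a + 2) (eb : db + mb ≤ b + 2) (ec : dc + mc ≤ c + 2) (hma : ma ≤ 2)
    (hmb : mb ≤ 2) (hmc : mc ≤ 2) :
    ∃ p ka kb kc, M.W ka x p ∧ M.W kb y p ∧ M.W kc z p ∧ ka + a + ma ≤ a + b + c ∧
      kb + b + mb ≤ a + b + c ∧ kc + c + mc ≤ a + b + c := by
  by_cases h1 : b + c < a + 2
  · exact M.hubA hb hc Wa Wb Wc ea eb ec hma h1
  by_cases h2 : a + c < b + 2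
  · obtain ⟨p, kb, ka, kc, g1, g2, g3, g4, g5, g6⟩ := M.hubA ha hc Wb Wa Wc eb ea ec hmb h2
    exact ⟨p, ka, kb, kc, g2, g1, g3, by omega, by omega, by omega⟩
  by_cases h3 : a + b < c + 2
  · obtain ⟨p, kc, ka, kb, g1, g2, g3, g4, g5, g6⟩ := M.hubA ha hb Wc Wa Wb ec ea eb hmc h3
    exact ⟨p, ka, kb, kc, g2, g3, g1, by omega, by omega, by omega⟩
  exact ⟨h, da, db, dc, M.symm Wa, M.symm Wb, M.symm Wc, by omega, by omega, by omega⟩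

/-- star lemma, one leaf is large -/
theorem starA {b x y z : V} {w a₁ a₂ a₃ : ℕ} (h2 : 2 ≤ a₂) (h3 : 2 ≤ a₃)
    (W1 : M.W (w + a₁ + 1) b x) (W2 : M.W (w + a₂ + 1) b y) (W3 : M.W (w + a₃ + 1) b z)
    (hlt : a₂ + a₃ < a₁ + 2) :
    ∃ p k₀ k₁ k₂ k₃, M.W k₀ b p ∧ M.W k₁ x p ∧ M.W k₂ y p ∧ M.W k₃ z p ∧
      k₀ + w + 1 ≤ w + a₁ + a₂ + a₃ ∧ k₁ + a₁ + 1 ≤ w + a₁ + a₂ + a₃ ∧
      k₂ + a₂ + 1 ≤ w + a₁ + a₂ + a₃ ∧ k₃ + a₃ + 1 ≤ w + a₁ + a₂ + a₃ := by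
  obtain ⟨p, h1, h2'⟩ := M.split' (m := a₁ + 2 - (a₂ + a₃)) W1 (by omega)
  exact ⟨p, _, _, _, _, h1, M.symm h2', M.trans (M.symm W2) h1, M.trans (M.symm W3) h1,
    by omega, by omega, by omega, by omega⟩

/-- star lemma -/
theorem star {b x y z : V} {w a₁ a₂ a₃ : ℕ} (h1 : 2 ≤ a₁) (h2 : 2 ≤ a₂) (h3 : 2 ≤ a₃)
    (W1 : M.W (w + a₁ + 1) b x) (W2 : M.W (w + a₂ + 1) b y) (W3 : M.W (w + a₃ + 1) b z) :
    ∃ p k₀ k₁ k₂ k₃, M.W k₀ b p ∧ M.W k₁ x p ∧ M.W k₂ y p ∧ M.W k₃ z p ∧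
      k₀ + w + 1 ≤ w + a₁ + a₂ + a₃ ∧ k₁ + a₁ + 1 ≤ w + a₁ + a₂ + a₃ ∧
      k₂ + a₂ + 1 ≤ w + a₁ + a₂ + a₃ ∧ k₃ + a₃ + 1 ≤ w + a₁ + a₂ + a₃ := by
  by_cases c1 : a₂ + a₃ < a₁ + 2
  · exact M.starA h2 h3 W1 W2 W3 c1
  by_cases c2 : a₁ + a₃ < a₂ + 2
  · obtain ⟨p, k0, k2, k1, k3, g0, g2, g1, g3, e0, e2, e1, e3⟩ := M.starA h1 h3 W2 W1 W3 c2
    exact ⟨p, k0, k1, k2, k3, g0, g1, g2, g3, by omega, by omega, by omega, by omega⟩
  by_cases c3 : a₁ + a₂ < a₃ + 2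
  · obtain ⟨p, k0, k3, k1, k2, g0, g3, g1, g2, e0, e3, e1, e2⟩ := M.starA h1 h2 W3 W1 W2 c3
    exact ⟨p, k0, k1, k2, k3, g0, g1, g2, g3, by omega, by omega, by omega, by omega⟩
  exact ⟨b, 0, _, _, _, M.refl b, M.symm W1, M.symm W2, M.symm W3, by omega, by omega, by omega,
    by omega⟩

/-- a point at position `s` on a path `c - b - x - d` with lengths `k, l, m` -/
theorem pos3 {c b x d : V} {k l m s : ℕ} (h1 : M.W k c b) (h2 : M.W l b x) (h3 : M.W m x d)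
    (hs : s ≤ k + l + m) :
    ∃ p, M.W s c p ∧ M.W (max (k - s) (s - k)) b p ∧ M.W (max (k + l - s) (s - (k + l))) x p ∧
      M.W (k + l + m - s) d p := by
  by_cases c1 : s ≤ k
  · obtain ⟨p, g1, g2⟩ := M.split' h1 c1
    refine ⟨p, g1, M.mono (by omega) (M.symm g2), ?_, ?_⟩
    · exact M.tr (M.symm h2) (M.symm g2) (by omega)
    · exact M.tr (M.tr (M.symm h3) (M.symm h2) le_rfl) (M.symm g2) (by omega)
  by_cases c2 : s ≤ k + l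
  · obtain ⟨p, g1, g2⟩ := M.split' (m := s - k) h2 (by omega)
    refine ⟨p, M.tr h1 g1 (by omega), M.mono (by omega) g1, M.mono (by omega) (M.symm g2), ?_⟩
    exact M.tr (M.symm h3) (M.symm g2) (by omega)
  · obtain ⟨p, g1, g2⟩ := M.split' (m := s - (k + l)) h3 (by omega)
    refine ⟨p, M.tr (M.tr h1 h2 le_rfl) g1 (by omega), M.tr h2 g1 (by omega),
      M.mono (by omega) g1, M.mono (by omega) (M.symm g2)⟩

end Nbh

end Pool.Agent.H83.Bc
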