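import Pool.Agent.H83.Bc.Srv

/-! # Far chains (MP_e7e1e7_co, helper83) -/

namespace Pool.Agent.H83.Bc

open Finset

set_option linter.unusedSectionVars false

variable {V : Type*} [Fintype V] [DecidableEq V]

section defs

variable (M : Nbh V) (f : V → ℕ) (𝓕 : Finset (Finset V)) (τ : V → V)

/-- there is an arc `v → τ v` inside the rest -/
def Arc (v : V) : Prop := R f 𝓕 v ∧ InW M f v ∧ R f 𝓕 (τ v)

/-- far elements that are not in near pairs -/
def BF (v : V) : Prop := Arc M f 𝓕 τ v ∧ ¬ Near M f v (τ v) ∧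
  ∀ w, Arc M f 𝓕 τ w → Near M f w (τ w) → τ w ≠ v

/-- elements of long far chains -/
def DD (v : V) : Prop := BF M f 𝓕 τ v ∧ ((∃ w, BF M f 𝓕 τ w ∧ τ w = v) ∨ InW M f (τ v)) ∧
  ¬ (InW M f (τ v) ∧ τ (τ v) = v)

/-- a chain that can be merged to one ball, the last element being lowered -/
structure Beta (S : Finset V) (b : V) : Prop where
  hS : ∀ a ∈ S, DD M f 𝓕 τ a
  hb : b ∈ S
  pred : ∃ w ∈ S, w ≠ b ∧ τ w = b
  clos : ∀ a ∈ S, a ≠ b → τ a ∈ S
  ball : ∃ c, (∀ a ∈ S, a ≠ b → ∃ k, M.W k a c ∧ k + f a + 1 ≤ ∑ x ∈ S, f x) ∧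
    (∃ k, M.W k b c ∧ k + f b ≤ ∑ x ∈ S, f x + 1) ∧
    (∀ y ∈ P M f b, M.W (∑ x ∈ S, f x) y c) ∧ ∀ u ∈ Uv M f b, M.W (∑ x ∈ S, f x) u c

end defs

variable {M : Nbh V} {f : V → ℕ} {𝓕 : Finset (Finset V)} {τ : V → V}

namespace Cfg

variable (C : Cfg M f 𝓕 τ)
include C

theorem BF_far {v : V} (h : BF M f 𝓕 τ v) : Far M f v (τ v) :=
  (C.near_or_far h.1.1 h.1.2.1 h.1.2.2).resolve_left h.2.1

theorem arc_tau {v : V} (h : Arc M f 𝓕 τ v) (hW : InW M f (τ v)) : Arc M f 𝓕 τ (τ v) :=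
  ⟨h.2.2, hW, C.in_fam h.1 h.2.1 h.2.2 hW⟩

theorem arc_inj {v w : V} (hv : Arc M f 𝓕 τ v) (hw : Arc M f 𝓕 τ w) (h : τ v = τ w) : v = w :=
  C.inj hv.1 hv.2.1 hw.1 hw.2.1 hv.2.2 h

theorem BF_tau {v : V} (h : BF M f 𝓕 τ v) (hW : InW M f (τ v)) : BF M f 𝓕 τ (τ v) := by
  have ha := C.arc_tau h.1 hW
  refine ⟨ha, fun hn => ?_, fun w hw hn hwt => ?_⟩
  · by_cases h2 : τ (τ v) = v
    · rw [h2] at hn
      exact h.2.1 hn.symm
    · exact C.in_near h.1.1 h.1.2.1 h.1.2.2 ha.2.2 h2 (C.tau _ hW).2.1 hn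
  · have := C.arc_inj hw h.1 hwt
    subst this
    exact h.2.1 hn

theorem DD_tau {v : V} (h : DD M f 𝓕 τ v) (hW : InW M f (τ v)) : DD M f 𝓕 τ (τ v) := by
  refine ⟨C.BF_tau h.1 hW, Or.inl ⟨v, h.1, rfl⟩, ?_⟩
  rintro ⟨h1, h2⟩
  have hb := C.BF_tau h.1 hW
  have hb2 := C.BF_tau hb h1
  have := C.arc_inj hb2.1 h.1.1 h2
  exact h.2.2 ⟨hW, this⟩

theorem DD_pred {v w : V} (h : DD M f 𝓕 τ v) (hw : BF M f 𝓕 τ w) (hwv : τ w = v) :
    DD M f 𝓕 τ w := by
  subst hwv
  refine ⟨hw, Or.inr h.1.1.2.1, ?_⟩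
  rintro ⟨h1, h2⟩
  refine h.2.2 ⟨?_, by rw [h2]⟩
  rw [h2]
  exact hw.1.2.1

theorem beta_base {v : V} (h : DD M f 𝓕 τ v) (hW : InW M f (τ v)) :
    Beta M f 𝓕 τ {v, τ v} (τ v) := by
  obtain ⟨x, r, hr, hrx, hxa, hxb⟩ := C.BF_far h.1
  have hne := (C.tau v h.1.1.2.1).2.1
  have hfa := C.H.two v h.1.1.2.1.1
  have hfb := C.H.two _ hW.1
  obtain ⟨c, g1, g2, g3, g4⟩ := M.pos3 (s := f (τ v) - 1) (M.refl v) (M.symm hxa) hxb (by omega)
  have hsum : ∑ x ∈ ({v, τ v} : Finset V), f x = f v + f (τ v) := Finset.sum_pair (Ne.symm hne)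
  refine ⟨?_, by simp, ⟨v, by simp, Ne.symm hne, rfl⟩, ?_, c, ?_, ?_, ?_⟩
  · intro a ha
    simp only [Finset.mem_insert, Finset.mem_singleton] at ha
    rcases ha with rfl | rfl
    exacts [h, C.DD_tau h hW]
  · intro a ha hab
    simp only [Finset.mem_insert, Finset.mem_singleton] at ha
    rcases ha with rfl | rfl
    · simp
    · exact absurd rfl hab
  · intro a ha hab
    simp only [Finset.mem_insert, Finset.mem_singleton] at ha
    rcases ha with rfl | rfl
    · rw [hsum]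
      exact ⟨_, g1, by omega⟩
    · exact absurd rfl hab
  · rw [hsum]
    exact ⟨_, g4, by omega⟩
  · rw [hsum]
    exact near_cover hW hr hrx g3 (by omega)

theorem beta_sum {S : Finset V} {b : V} (h : Beta M f 𝓕 τ S b) : f b + 2 ≤ ∑ x ∈ S, f x := by
  obtain ⟨w, hw, hwb, _⟩ := h.pred
  have h1 : ∑ x ∈ ({b, w} : Finset V), f x ≤ ∑ x ∈ S, f x := by
    refine Finset.sum_le_sum_of_subset (fun x hx => ?_)
    simp only [Finset.mem_insert, Finset.mem_singleton] at hx
    rcases hx with rfl | rfl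
    exacts [h.hb, hw]
  rw [Finset.sum_pair (Ne.symm hwb)] at h1
  have := C.H.two w (h.hS w hw).1.1.1.1
  omega

theorem beta_front {S : Finset V} {b v : V} (h : Beta M f 𝓕 τ S b) (hv : DD M f 𝓕 τ v)
    (hvS : v ∉ S) (ht : τ v ∈ S) (htb : τ v ≠ b) : Beta M f 𝓕 τ (insert v S) b := by
  obtain ⟨c, h1, ⟨k₀, h2, h2'⟩, h3, h4⟩ := h.ball
  obtain ⟨x, r, hr, hrx, hxa, hxb⟩ := C.BF_far hv.1
  obtain ⟨k, hk, hk'⟩ := h1 _ ht htb
  have hfv := C.H.two v hv.1.1.1.1
  -- walk c - τ v - x - v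
  obtain ⟨c', g1, g2, g3, g4⟩ := M.pos3 (s := f v) (M.symm hk) (M.symm hxb) hxa (by omega)
  have hsum : ∑ x ∈ insert v S, f x = f v + ∑ x ∈ S, f x := Finset.sum_insert hvS
  have hbS := h.hb
  refine ⟨?_, Finset.mem_insert_of_mem h.hb, ?_, ?_, c', ?_, ?_, ?_, ?_⟩
  · intro a ha
    rcases Finset.mem_insert.1 ha with rfl | ha
    exacts [hv, h.hS a ha]
  · obtain ⟨w, hw, h5⟩ := h.pred
    exact ⟨w, Finset.mem_insert_of_mem hw, h5⟩
  · intro a ha hab
    rcases Finset.mem_insert.1 ha with rfl | ha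
    · exact Finset.mem_insert_of_mem ht
    · exact Finset.mem_insert_of_mem (h.clos a ha hab)
  · intro a ha hab
    rw [hsum]
    rcases Finset.mem_insert.1 ha with rfl | ha
    · exact ⟨_, g4, by omega⟩
    · obtain ⟨k', hk1, hk2⟩ := h1 a ha hab
      exact ⟨_, M.trans hk1 g1, by omega⟩
  · rw [hsum]
    exact ⟨_, M.trans h2 g1, by omega⟩
  · intro y hy
    rw [hsum]
    exact M.tr (h3 y hy) g1 (by omega)
  · intro y hy
    rw [hsum]
    exact M.tr (h4 y hy) g1 (by omega)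

theorem beta_back {S : Finset V} {b : V} (h : Beta M f 𝓕 τ S b) (hW : InW M f (τ b))
    (hbS : τ b ∉ S) : Beta M f 𝓕 τ (insert (τ b) S) (τ b) := by
  obtain ⟨c, h1, ⟨k, h2, h2'⟩, h3, h4⟩ := h.ball
  have hbD := h.hS b h.hb
  obtain ⟨x, r, hr, hrx, hxa, hxb⟩ := C.BF_far hbD.1
  have hfb := C.H.two b hbD.1.1.1.1
  have hfb' := C.H.two _ hW.1
  have hs := C.beta_sum h
  -- walk c - b - x - τ b
  obtain ⟨c', g1, g2, g3, g4⟩ := M.pos3 (s := f (τ b)) (M.symm h2) (M.symm hxa) hxb (by omega)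
  have hsum : ∑ x ∈ insert (τ b) S, f x = f (τ b) + ∑ x ∈ S, f x := Finset.sum_insert hbS
  refine ⟨?_, Finset.mem_insert_self _ _, ?_, ?_, c', ?_, ?_, ?_⟩
  · intro a ha
    rcases Finset.mem_insert.1 ha with rfl | ha
    exacts [C.DD_tau hbD hW, h.hS a ha]
  · exact ⟨b, Finset.mem_insert_of_mem h.hb, Ne.symm (C.tau b hbD.1.1.2.1).2.1, rfl⟩
  · intro a ha hab
    rcases Finset.mem_insert.1 ha with rfl | ha
    · exact absurd rfl hab
    · by_cases hab' : a = b
      · subst hab'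
        exact Finset.mem_insert_self _ _
      · exact Finset.mem_insert_of_mem (h.clos a ha hab')
  · intro a ha hab
    rw [hsum]
    rcases Finset.mem_insert.1 ha with rfl | ha
    · exact absurd rfl hab
    · by_cases hab' : a = b
      · subst hab'
        exact ⟨_, g2, by omega⟩
      · obtain ⟨k', hk1, hk2⟩ := h1 a ha hab'
        exact ⟨_, M.trans hk1 g1, by omega⟩
  · rw [hsum]
    exact ⟨_, g4, by omega⟩
  · rw [hsum]
    exact near_cover hW hr hrx g3 (by omega)

theorem beta_sv {S : Finset V} {b : V} (h : Beta M f 𝓕 τ S b) : Sv M f S {b} := by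
  obtain ⟨c, h1, h2, h3, h4⟩ := h.ball
  have hpos : ∀ a ∈ S, 0 < f a := fun a ha => (h.hS a ha).1.1.1.1
  refine sv_ball C.H (c := c) ⟨b, h.hb⟩ (by simpa using h.hb) hpos ?_ ?_ ?_
  · intro a ha hab
    obtain ⟨k, hk, hk'⟩ := h1 a ha (by simpa using hab)
    exact ⟨k, hk, by omega⟩
  · intro a ha
    rw [Finset.mem_singleton] at ha
    subst ha
    exact h2
  · intro a ha
    by_cases hab : a = b
    · subst hab
      exact Or.inr ⟨h3, h4⟩
    · exact Or.inl (h1 a ha hab)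

/-- the long far chains can be served, lowering only conflict-free elements -/
theorem serveD (n : ℕ) : ∀ X : Finset V, X.card = n → (∀ v ∈ X, DD M f 𝓕 τ v) →
    (∀ v ∈ X, InW M f (τ v) → τ v ∈ X) → (∀ v ∈ X, ∀ w, DD M f 𝓕 τ w → τ w = v → w ∈ X) →
    ∃ L, Sv M f X L ∧ L ⊆ X ∧
      ∀ b ∈ L, τ b ∉ L ∧ ∃ w ∈ X, w ∉ L ∧ τ w = b ∧ w ≠ τ b := by
  induction n using Nat.strong_induction_on with
  | _ n ih =>
    intro X hXn hX hX1 hX2
    rcases X.eq_empty_or_nonempty with rfl | ⟨v, hv⟩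
    · exact ⟨∅, Sv.empty, by simp, by simp⟩
    · -- a chain of maximal size
      have hex : ∃ q : Finset V × V, Beta M f 𝓕 τ q.1 q.2 ∧ q.1 ⊆ X := by
        rcases (hX v hv).2.1 with ⟨w, hw, hwv⟩ | h
        · have hwD := C.DD_pred (hX v hv) hw hwv
          refine ⟨({w, τ w}, τ w), C.beta_base hwD (by rw [hwv]; exact (hX v hv).1.1.2.1), ?_⟩
          intro a ha
          simp only [Finset.mem_insert, Finset.mem_singleton] at ha
          rcases ha with rfl | rfl
          · exact hX2 v hv _ hwD hwv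
          · rw [hwv]; exact hv
        · refine ⟨({v, τ v}, τ v), C.beta_base (hX v hv) h, ?_⟩
          intro a ha
          simp only [Finset.mem_insert, Finset.mem_singleton] at ha
          rcases ha with rfl | rfl
          exacts [hv, hX1 _ hv h]
      classical
      obtain ⟨⟨S, b⟩, hSb, hmax⟩ := Finset.exists_max_image
        (Finset.univ.filter (fun q : Finset V × V => Beta M f 𝓕 τ q.1 q.2 ∧ q.1 ⊆ X))
        (fun q => q.1.card) (by
          obtain ⟨q, hq⟩ := hex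
          exact ⟨q, by simpa using hq⟩)
      simp only [Finset.mem_filter, Finset.mem_univ, true_and] at hSb hmax
      obtain ⟨hB, hSX⟩ := hSb
      obtain ⟨w, hwS, hwb, hτw⟩ := hB.pred
      have hbX := hSX hB.hb
      have hinj : ∀ v, DD M f 𝓕 τ v → τ v = b → v = w := fun v hv h =>
        C.arc_inj hv.1.1 (hB.hS w hwS).1.1 (h.trans hτw.symm)
      have hfront : ∀ v ∈ X, v ∉ S → τ v ∉ S := by
        intro v hv hvS ht
        have htb : τ v ≠ b := fun h => hvS (hinj v (hX v hv) h ▸ hwS)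
        have h1 := C.beta_front hB (hX v hv) hvS ht htb
        have h2 := hmax (insert v S, b) ⟨h1, Finset.insert_subset hv hSX⟩
        simp only [Finset.card_insert_of_notMem hvS] at h2
        omega
      have hback : InW M f (τ b) → τ b ∈ S := by
        intro hW
        by_contra hbS
        have h1 := C.beta_back hB hW hbS
        have h2 := hmax (insert (τ b) S, τ b) ⟨h1, Finset.insert_subset (hX1 b hbX hW) hSX⟩
        simp only [Finset.card_insert_of_notMem hbS] at h2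
        omega
      have hcard : (X \ S).card < n := by
        rw [← hXn]
        exact Finset.card_lt_card (Finset.sdiff_ssubset hSX ⟨b, hB.hb⟩)
      obtain ⟨L, hL1, hL2, hL3⟩ := ih _ hcard (X \ S) rfl
        (fun v hv => hX v (Finset.mem_sdiff.1 hv).1)
        (fun v hv hW => by
          obtain ⟨hv1, hv2⟩ := Finset.mem_sdiff.1 hv
          exact Finset.mem_sdiff.2 ⟨hX1 v hv1 hW, hfront v hv1 hv2⟩)
        (fun v hv w' hw' hwv' => by
          obtain ⟨hv1, hv2⟩ := Finset.mem_sdiff.1 hv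
          refine Finset.mem_sdiff.2 ⟨hX2 v hv1 w' hw' hwv', fun hw'S => ?_⟩
          by_cases hw'b : w' = b
          · subst hw'b
            rw [hwv'] at hback
            exact hv2 (hback (hX v hv1).1.1.2.1)
          · exact hv2 (hwv' ▸ hB.clos w' hw'S hw'b))
      have hXeq : S ∪ X \ S = X := Finset.union_sdiff_of_subset hSX
      have hLS : ∀ a ∈ L, a ∉ S := fun a ha => (Finset.mem_sdiff.1 (hL2 ha)).2
      refine ⟨{b} ∪ L, ?_, ?_, ?_⟩
      · have := (C.beta_sv hB).union hL1 Finset.disjoint_sdiff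
        rwa [hXeq] at this
      · intro a ha
        rcases Finset.mem_union.1 ha with h | h
        · rw [Finset.mem_singleton] at h
          exact h ▸ hbX
        · exact (Finset.mem_sdiff.1 (hL2 h)).1
      · intro a ha
        rcases Finset.mem_union.1 ha with h | h
        · rw [Finset.mem_singleton] at h
          subst h
          refine ⟨?_, w, hSX hwS, ?_, hτw, ?_⟩
          · intro h
            rcases Finset.mem_union.1 h with h | h
            · rw [Finset.mem_singleton] at h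
              exact (C.tau a (hX a hbX).1.1.2.1).2.1 h
            · have h5 := hLS _ h
              exact h5 (hback (hX _ (Finset.mem_sdiff.1 (hL2 h)).1).1.1.2.1)
          · intro h
            rcases Finset.mem_union.1 h with h | h
            · exact hwb (Finset.mem_singleton.1 h)
            · exact hLS _ h hwS
          · intro h
            refine (hB.hS a hB.hb).2.2 ⟨h ▸ (hB.hS w hwS).1.1.2.1, ?_⟩
            rw [← h, hτw]
        · obtain ⟨h1, w', h2, h3, h4, h5⟩ := hL3 a h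
          obtain ⟨h2a, h2b⟩ := Finset.mem_sdiff.1 h2
          refine ⟨?_, w', h2a, ?_, h4, h5⟩
          · intro h'
            rcases Finset.mem_union.1 h' with h' | h'
            · rw [Finset.mem_singleton] at h'
              have haX := (Finset.mem_sdiff.1 (hL2 h)).1
              exact hLS a h (hinj a (hX a haX) h' ▸ hwS)
            · exact h1 h'
          · intro h'
            rcases Finset.mem_union.1 h' with h' | h'
            · rw [Finset.mem_singleton] at h'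
              exact h2b (h' ▸ hB.hb)
            · exact h3 h'

end Cfg

end Pool.Agent.H83.Bc
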