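import Mathlib

/-! # Choosing one end of every pair (MP_e7e1e7_co, helper83) -/

namespace Pool.Agent.H83.Bc

open Finset

theorem two_colour {V : Type*} [DecidableEq V] (π : V → V) (n : ℕ) :
    ∀ (E : Finset V) (K : V → V → Prop), E.card = n →
      (∀ a ∈ E, π a ∈ E ∧ π (π a) = a ∧ π a ≠ a) → (∀ a b, K a b → K b a) →
      (∀ a ∈ E, ∀ b ∈ E, ∀ c ∈ E, K a b → K a c → b ≠ a → c ≠ a → b ≠ π a → c ≠ π a → b = c) →
      ∃ L ⊆ E, (∀ a ∈ E, (a ∈ L ∧ π a ∉ L) ∨ (a ∉ L ∧ π a ∈ L)) ∧
        ∀ a ∈ L, ∀ b ∈ L, a ≠ b → ¬ K a b := by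
  induction n using Nat.strong_induction_on with
  | _ n ih =>
    intro E K hEn hπ hs hu
    rcases E.eq_empty_or_nonempty with rfl | ⟨a, ha⟩
    · exact ⟨∅, by simp, by simp, by simp⟩
    · obtain ⟨hb, hba, hne⟩ := hπ a ha
      set b := π a with hbdef
      have hEcard : ((E.erase a).erase b).card < n := by
        rw [← hEn]
        refine lt_of_le_of_lt (Finset.card_le_card (Finset.erase_subset _ _)) ?_
        exact Finset.card_erase_lt_of_mem ha
      have hmem : ∀ x, x ∈ (E.erase a).erase b ↔ x ≠ b ∧ x ≠ a ∧ x ∈ E := by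
        intro x
        rw [Finset.mem_erase, Finset.mem_erase]
      have hπ' : ∀ x ∈ (E.erase a).erase b,
          π x ∈ (E.erase a).erase b ∧ π (π x) = x ∧ π x ≠ x := by
        intro x hx
        obtain ⟨h1, h2, h3⟩ := (hmem x).1 hx
        obtain ⟨h4, h5, h6⟩ := hπ x h3
        refine ⟨(hmem _).2 ⟨?_, ?_, h4⟩, h5, h6⟩
        · intro h
          exact h2 (by rw [← h5, h, hba])
        · intro h
          exact h1 (by rw [← h5, h])
      -- the new relation
      obtain ⟨L, hL1, hL2, hL3⟩ := ih _ hEcard ((E.erase a).erase b)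
        (fun x y => K x y ∨ (x ≠ y ∧ ((K a x ∧ K b y) ∨ (K b x ∧ K a y)))) rfl hπ'
        (by
          rintro x y (h | ⟨h1, h2⟩)
          · exact Or.inl (hs _ _ h)
          · refine Or.inr ⟨Ne.symm h1, ?_⟩
            rcases h2 with ⟨h2, h3⟩ | ⟨h2, h3⟩
            exacts [Or.inr ⟨h3, h2⟩, Or.inl ⟨h3, h2⟩])
        (by
          intro x hx y hy z hz hxy hxz hyx hzx hyπ hzπ
          obtain ⟨x1, x2, x3⟩ := (hmem x).1 hx
          obtain ⟨y1, y2, y3⟩ := (hmem y).1 hy
          obtain ⟨z1, z2, z3⟩ := (hmem z).1 hz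
          obtain ⟨hπx, -, -⟩ := hπ' x hx
          obtain ⟨p1, p2, p3⟩ := (hmem _).1 hπx
          have key : ∀ t ∈ E, K x t → t ≠ x → t ≠ π x → K a x → t = a := fun t ht h h' h'' hax =>
            hu x x3 t ht a ha h (hs _ _ hax) h' (Ne.symm x2) h'' (Ne.symm p2)
          have key' : ∀ t ∈ E, K x t → t ≠ x → t ≠ π x → K b x → t = b := fun t ht h h' h'' hax =>
            hu x x3 t ht b hb h (hs _ _ hax) h' (Ne.symm x1) h'' (Ne.symm p1)
          have kab : K a x → K b x → False := fun h h' =>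
            hne (key b hb (hs _ _ h') (Ne.symm x1) (Ne.symm p1) h)
          have ka : ∀ t t', t ∈ E → t' ∈ E → K a t → K a t' → t ≠ a → t' ≠ a → t ≠ b → t' ≠ b →
              t = t' := fun t t' ht ht' h h' h1 h2 h3 h4 => hu a ha t ht t' ht' h h' h1 h2 h3 h4
          have kb : ∀ t t', t ∈ E → t' ∈ E → K b t → K b t' → t ≠ a → t' ≠ a → t ≠ b → t' ≠ b →
              t = t' := fun t t' ht ht' h h' h1 h2 h3 h4 => hu b hb t ht t' ht' h h' h3 h4
                (by rw [hba]; exact h1) (by rw [hba]; exact h2)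
          rcases hxy with hxy | ⟨-, ⟨q1, q2⟩ | ⟨q1, q2⟩⟩
          · rcases hxz with hxz | ⟨-, ⟨r1, r2⟩ | ⟨r1, r2⟩⟩
            · exact hu x x3 y y3 z z3 hxy hxz hyx hzx hyπ hzπ
            · exact absurd (key y y3 hxy hyx hyπ r1) y2
            · exact absurd (key' y y3 hxy hyx hyπ r1) y1
          · rcases hxz with hxz | ⟨-, ⟨r1, r2⟩ | ⟨r1, r2⟩⟩
            · exact absurd (key z z3 hxz hzx hzπ q1) z2
            · exact kb _ _ y3 z3 q2 r2 y2 z2 y1 z1
            · exact absurd (kab q1 r1) id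
          · rcases hxz with hxz | ⟨-, ⟨r1, r2⟩ | ⟨r1, r2⟩⟩
            · exact absurd (key' z z3 hxz hzx hzπ q1) z1
            · exact absurd (kab r1 q1) id
            · exact ka _ _ y3 z3 q2 r2 y2 z2 y1 z1)
      have hLE : ∀ x ∈ L, x ≠ b ∧ x ≠ a ∧ x ∈ E := fun x hx => (hmem x).1 (hL1 hx)
      have haL : a ∉ L := fun h => (hLE a h).2.1 rfl
      have hbL : b ∉ L := fun h => (hLE b h).1 rfl
      by_cases hx : ∃ x ∈ L, K a x
      · obtain ⟨x, hxL, hax⟩ := hx
        refine ⟨insert b L, Finset.insert_subset hb (fun x hx => (hLE x hx).2.2), ?_, ?_⟩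
        · intro y hy
          by_cases hya : y = a
          · subst hya
            exact Or.inr ⟨by simp [haL, Ne.symm hne], by rw [← hbdef]; simp⟩
          by_cases hyb : y = b
          · subst hyb
            exact Or.inl ⟨by simp, by rw [hba]; simp [haL, Ne.symm hne]⟩
          have hy' := (hmem y).2 ⟨hyb, hya, hy⟩
          obtain ⟨h1, h2, h3⟩ := (hmem _).1 (hπ' y hy').1
          rcases hL2 y hy' with ⟨h4, h5⟩ | ⟨h4, h5⟩
          · exact Or.inl ⟨Finset.mem_insert_of_mem h4, by simp [h1, h5]⟩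
          · exact Or.inr ⟨by simp [hyb, h4], Finset.mem_insert_of_mem h5⟩
        · have hbk : ∀ y ∈ L, ¬ K b y := by
            intro y hy hby
            by_cases hxy : x = y
            · subst hxy
              obtain ⟨e1, e2, e3⟩ := hLE x hxL
              obtain ⟨h1, h2, h3⟩ := (hmem _).1 (hπ' x (hL1 hxL)).1
              exact hne (hu x e3 b hb a ha (hs _ _ hby) (hs _ _ hax) (Ne.symm e1) (Ne.symm e2)
                (Ne.symm h1) (Ne.symm h2))
            · exact hL3 x hxL y hy hxy (Or.inr ⟨hxy, Or.inl ⟨hax, hby⟩⟩)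
          intro y hy z hz hyz hK
          rcases Finset.mem_insert.1 hy with rfl | hy
          · rcases Finset.mem_insert.1 hz with rfl | hz
            · exact hyz rfl
            · exact hbk z hz hK
          · rcases Finset.mem_insert.1 hz with rfl | hz
            · exact hbk y hy (hs _ _ hK)
            · exact hL3 y hy z hz hyz (Or.inl hK)
      · refine ⟨insert a L, Finset.insert_subset ha (fun x hx => (hLE x hx).2.2), ?_, ?_⟩
        · intro y hy
          by_cases hya : y = a
          · subst hya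
            exact Or.inl ⟨by simp, by rw [← hbdef]; simp [hbL, hne]⟩
          by_cases hyb : y = b
          · subst hyb
            exact Or.inr ⟨by simp [hbL, hne], by rw [hba]; simp⟩
          have hy' := (hmem y).2 ⟨hyb, hya, hy⟩
          obtain ⟨h1, h2, h3⟩ := (hmem _).1 (hπ' y hy').1
          rcases hL2 y hy' with ⟨h4, h5⟩ | ⟨h4, h5⟩
          · exact Or.inl ⟨Finset.mem_insert_of_mem h4, by simp [h2, h5]⟩
          · exact Or.inr ⟨by simp [hya, h4], Finset.mem_insert_of_mem h5⟩
        · have hak : ∀ y ∈ L, ¬ K a y := fun y hy h => hx ⟨y, hy, h⟩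
          intro y hy z hz hyz hK
          rcases Finset.mem_insert.1 hy with e1 | e1
          · rcases Finset.mem_insert.1 hz with e2 | e2
            · exact hyz (e1.trans e2.symm)
            · exact hak z e2 (e1 ▸ hK)
          · rcases Finset.mem_insert.1 hz with e2 | e2
            · exact hak y e1 (hs _ _ (e2 ▸ hK))
            · exact hL3 y e1 z e2 hyz (Or.inl hK)

end Pool.Agent.H83.Bc
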