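import Pool.Agent.H83.Bc.Pairs

/-! # The core theorem (MP_e7e1e7_co, helper83) -/

namespace Pool.Agent.H83.Bc

open Finset

set_option linter.unusedSectionVars false

variable {V : Type*} [Fintype V] [DecidableEq V]
variable {M : Nbh V} {f : V → ℕ} {𝓕 : Finset (Finset V)} {τ : V → V}

namespace Cfg

variable (C : Cfg M f 𝓕 τ)
include C

/-- free sets together with the elements attached to them -/
theorem serveF (A : Finset V)
    (hA : ∀ v, v ∈ A ↔ R f 𝓕 v ∧ InW M f v ∧ ¬ R f 𝓕 (τ v)) :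
    Sv M f (𝓕.biUnion id ∪ A) ∅ := by
  classical
  have h1 : Sv M f (𝓕.biUnion fun F => F ∪ A.filter (fun v => τ v ∈ F)) (𝓕.biUnion fun _ => ∅) := by
    refine Sv.biUnion ?_ ?_
    · intro F hF
      refine C.sv_attach hF _ ?_
      intro v hv
      obtain ⟨h1, h2⟩ := Finset.mem_filter.1 hv
      have := (hA v).1 h1
      exact ⟨this.1, this.2.1, h2⟩
    · intro F hF F' hF' hne
      have hd := C.X.fam.2 F hF F' hF' hne
      rw [Finset.disjoint_left]
      intro a ha ha'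
      have hRF : ∀ {G : Finset V}, G ∈ 𝓕 → a ∈ G → a ∈ A → False := fun hG haG haA =>
        ((hA a).1 haA).1.2 (Finset.mem_biUnion.2 ⟨_, hG, haG⟩)
      rcases Finset.mem_union.1 ha with h | h
      · rcases Finset.mem_union.1 ha' with h' | h'
        · exact (Finset.disjoint_left.1 hd) h h'
        · exact hRF hF h (Finset.mem_filter.1 h').1
      · rcases Finset.mem_union.1 ha' with h' | h'
        · exact hRF hF' h' (Finset.mem_filter.1 h).1
        · exact (Finset.disjoint_left.1 hd) (Finset.mem_filter.1 h).2 (Finset.mem_filter.1 h').2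
  have e1 : (𝓕.biUnion fun F => F ∪ A.filter (fun v => τ v ∈ F)) = 𝓕.biUnion id ∪ A := by
    ext x
    simp only [Finset.mem_biUnion, Finset.mem_union, Finset.mem_filter, id]
    constructor
    · rintro ⟨F, hF, h | h⟩
      · exact Or.inl ⟨F, hF, h⟩
      · exact Or.inr h.1
    · rintro (⟨F, hF, h⟩ | h)
      · exact ⟨F, hF, Or.inl h⟩
      · obtain ⟨hR, hW, hn⟩ := (hA x).1 h
        have : τ x ∈ 𝓕.biUnion id := by
          by_contra h'
          exact hn ⟨(C.tau x hW).1, h'⟩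
        obtain ⟨F, hF, hxF⟩ := Finset.mem_biUnion.1 this
        exact ⟨F, hF, Or.inr ⟨h, hxF⟩⟩
  have e2 : (𝓕.biUnion fun _ : Finset V => (∅ : Finset V)) = ∅ := by
    ext x
    simp
  rwa [e1, e2] at h1

theorem X_not_E {v : V} (hv : DD M f 𝓕 τ v) (hE : EE M f 𝓕 τ v) : False := by
  obtain ⟨hB, h1, h2⟩ := hv
  rcases hE with (⟨_, hn⟩ | ⟨_, h3, h4⟩ | ⟨_, h3, h4⟩) | ⟨w, (⟨ha, hn⟩ | ⟨hw, h3, h4⟩ | ⟨hw, h3, h4⟩), h5⟩
  · exact hB.2.1 hn
  · rcases h1 with h1 | h1
    exacts [h4 h1, h3 h1]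
  · exact h2 ⟨h3, h4⟩
  · exact hB.2.2 w ha hn h5
  · subst h5
    exact h3 hB.1.2.1
  · subst h5
    refine h2 ⟨?_, by rw [h4]⟩
    rw [h4]
    exact hw.1.2.1

/-- the core theorem -/
theorem exists_dom : ∃ g : V → ℕ, ∑ v, g v ≤ ∑ v, f v ∧ ∀ y, Cov M g y := by
  classical
  set A : Finset V := Finset.univ.filter (fun v => R f 𝓕 v ∧ InW M f v ∧ ¬ R f 𝓕 (τ v)) with hAdef
  have hA : ∀ v, v ∈ A ↔ R f 𝓕 v ∧ InW M f v ∧ ¬ R f 𝓕 (τ v) := by simp [hAdef]
  set X : Finset V := Finset.univ.filter (fun v => DD M f 𝓕 τ v) with hXdef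
  have hX : ∀ v, v ∈ X ↔ DD M f 𝓕 τ v := by simp [hXdef]
  set E : Finset V := Finset.univ.filter (fun v => EE M f 𝓕 τ v) with hEdef
  have hE : ∀ v, v ∈ E ↔ EE M f 𝓕 τ v := by simp [hEdef]
  set K : Finset V := Finset.univ.filter
    (fun v => R f 𝓕 v ∧ v ∉ A ∧ v ∉ X ∧ v ∉ E) with hKdef
  have hK : ∀ v, v ∈ K ↔ R f 𝓕 v ∧ v ∉ A ∧ v ∉ X ∧ v ∉ E := by simp [hKdef]
  have s1 := C.serveF A hA
  obtain ⟨L₁, s2, hL1, hL1'⟩ := C.serveD X.card X rfl (fun v hv => (hX v).1 hv)
    (fun v hv hW => (hX _).2 (C.DD_tau ((hX v).1 hv) hW))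
    (fun v hv w hw _ => (hX w).2 hw)
  obtain ⟨L₂, s3, hL2, hL2'⟩ := C.serveE E hE
  have s4 : Sv M f K ∅ := by
    have h1 : Sv M f (K.biUnion fun v => {v}) (K.biUnion fun _ => ∅) := by
      refine Sv.biUnion ?_ ?_
      · intro v hv
        obtain ⟨hR, h1, h2, h3⟩ := (hK v).1 hv
        refine sv_single hR.1 (fun hW => ?_)
        have hRt : R f 𝓕 (τ v) := by
          by_contra h
          exact h1 ((hA v).2 ⟨hR, hW, h⟩)
        have harc : Arc M f 𝓕 τ v := ⟨hR, hW, hRt⟩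
        rw [hE] at h3
        rw [hX] at h2
        have hBF : BF M f 𝓕 τ v := by
          refine ⟨harc, fun hn => h3 (Or.inl (Or.inl ⟨harc, hn⟩)), fun w hw hn hwv => ?_⟩
          exact h3 (Or.inr ⟨w, Or.inl ⟨hw, hn⟩, hwv⟩)
        by_cases hWt : InW M f (τ v)
        · by_cases h2c : τ (τ v) = v
          · exact h3 (Or.inl (Or.inr (Or.inr ⟨hBF, hWt, h2c⟩)))
          · exact h2 ⟨hBF, Or.inr hWt, fun h => h2c h.2⟩
        · by_cases hp : ∃ w, BF M f 𝓕 τ w ∧ τ w = v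
          · exact h2 ⟨hBF, Or.inl hp, fun h => hWt h.1⟩
          · exact h3 (Or.inl (Or.inr (Or.inl ⟨hBF, hWt, hp⟩)))
      · intro v _ w _ hvw
        simpa using hvw
    have e1 : (K.biUnion fun v => ({v} : Finset V)) = K := by ext x; simp
    have e2 : (K.biUnion fun _ : V => (∅ : Finset V)) = ∅ := by ext x; simp
    rwa [e1, e2] at h1
  have hAR : ∀ v ∈ A, R f 𝓕 v := fun v hv => ((hA v).1 hv).1
  have hXR : ∀ v ∈ X, R f 𝓕 v := fun v hv => ((hX v).1 hv).1.1.1
  have hER : ∀ v ∈ E, R f 𝓕 v := fun v hv => C.EE_R ((hE v).1 hv)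
  have d12 : Disjoint (𝓕.biUnion id ∪ A) X := by
    rw [Finset.disjoint_left]
    intro v hv hvX
    rcases Finset.mem_union.1 hv with h | h
    · exact (hXR v hvX).2 h
    · exact ((hA v).1 h).2.2 ((hX v).1 hvX).1.1.2.2
  have d123 : Disjoint ((𝓕.biUnion id ∪ A) ∪ X) E := by
    rw [Finset.disjoint_left]
    intro v hv hvE
    rcases Finset.mem_union.1 hv with h | h
    · rcases Finset.mem_union.1 h with h | h
      · exact (hER v hvE).2 h
      · obtain ⟨g1, g2, g3⟩ := (hA v).1 h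
        rcases (hE v).1 hvE with h' | ⟨w, h', rfl⟩
        · exact g3 h'.arc.2.2
        · exact g3 (C.arc_tau h'.arc g2).2.2
    · exact C.X_not_E ((hX v).1 h) ((hE v).1 hvE)
  have d1234 : Disjoint (((𝓕.biUnion id ∪ A) ∪ X) ∪ E) K := by
    rw [Finset.disjoint_left]
    intro v hv hvK
    obtain ⟨g1, g2, g3, g4⟩ := (hK v).1 hvK
    rcases Finset.mem_union.1 hv with h | h
    · rcases Finset.mem_union.1 h with h | h
      · rcases Finset.mem_union.1 h with h | h
        · exact g1.2 h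
        · exact g2 h
      · exact g3 h
    · exact g4 h
  have stot := ((s1.union s2 d12).union s3 d123).union s4 d1234
  obtain ⟨g, hg⟩ := stot
  have hT : ∀ v, 0 < f v → v ∈ (((𝓕.biUnion id ∪ A) ∪ X) ∪ E) ∪ K := by
    intro v hv
    by_cases h1 : v ∈ 𝓕.biUnion id
    · exact Finset.mem_union_left _ (Finset.mem_union_left _ (Finset.mem_union_left _
        (Finset.mem_union_left _ h1)))
    by_cases h2 : v ∈ A
    · exact Finset.mem_union_left _ (Finset.mem_union_left _ (Finset.mem_union_left _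
        (Finset.mem_union_right _ h2)))
    by_cases h3 : v ∈ X
    · exact Finset.mem_union_left _ (Finset.mem_union_left _ (Finset.mem_union_right _ h3))
    by_cases h4 : v ∈ E
    · exact Finset.mem_union_left _ (Finset.mem_union_right _ h4)
    · exact Finset.mem_union_right _ ((hK v).2 ⟨⟨hv, h1⟩, h2, h3, h4⟩)
  -- no overlaps of lowered elements
  have hind1 : ∀ a ∈ L₁, ∀ b ∈ L₁ ∪ L₂, a ≠ b → ¬ M.W (f a + f b) a b := by
    intro a ha b hb hab hov
    obtain ⟨h1, w, hwX, hwL, hwa, hwt⟩ := hL1' a ha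
    have haX := hL1 ha
    have haD := (hX a).1 haX
    have hwD := (hX w).1 hwX
    have hbR : R f 𝓕 b := by
      rcases Finset.mem_union.1 hb with h | h
      exacts [hXR b (hL1 h), hER b (hL2 h)]
    have hbw : w ≠ b := by
      rintro rfl
      rcases Finset.mem_union.1 hb with h | h
      · exact hwL h
      · exact C.X_not_E hwD ((hE w).1 (hL2 h))
    have hbt : τ a ≠ b := by
      rintro rfl
      rcases Finset.mem_union.1 hb with h | h
      · exact h1 h
      · rcases (hE _).1 (hL2 h) with h' | ⟨v, h', h5⟩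
        · exact C.X_not_E (C.DD_tau haD h'.arc.2.1) ((hE _).1 (hL2 h))
        · have := C.arc_inj h'.arc haD.1.1 h5
          subst this
          exact C.X_not_E haD (Or.inl h')
    have hca := C.contact haD.1.1.2.1
    have hcw := C.contact hwD.1.1.2.1
    rw [hwa] at hcw
    refine C.X.H4 C.H haD.1.1.1 hwD.1.1.1 haD.1.1.2.2 hbR ?_ (Ne.symm (C.tau a haD.1.1.2.1).2.1)
      hab hwt hbw hbt (M.mono (by omega) (M.symm hcw)) hca (M.mono (by omega) hov)
    intro h
    exact (C.tau w hwD.1.1.2.1).2.1 (hwa.trans h)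
  have hind : ∀ a ∈ L₁ ∪ L₂, ∀ b ∈ L₁ ∪ L₂, a ≠ b → ¬ M.W (f a + f b) a b := by
    intro a ha b hb hab hov
    rcases Finset.mem_union.1 ha with h | h
    · exact hind1 a h b hb hab hov
    · rcases Finset.mem_union.1 hb with h' | h'
      · exact hind1 b h' a ha (Ne.symm hab) (by rw [add_comm]; exact M.symm hov)
      · exact hL2' a h b h' hab hov
  have hLL : ∀ a, a ∈ ((∅ ∪ L₁) ∪ L₂) ∪ ∅ → a ∈ L₁ ∪ L₂ := by
    intro a ha
    simpa using ha
  refine ⟨g, ?_, ?_⟩
  · refine hg.cost.trans (Finset.sum_le_sum_of_subset (Finset.subset_univ _))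
  · intro y
    by_cases hyU : y ∈ U M f
    · obtain ⟨w, hw0, hw⟩ := C.H.mem_Uv hyU
      exact hg.und w (hT w hw0) y hw
    · simp only [U, Set.mem_ofPred_eq, not_forall, not_not] at hyU
      obtain ⟨w, hw0, hw⟩ := hyU
      by_cases hwL : w ∈ ((∅ ∪ L₁) ∪ L₂) ∪ ∅
      · by_cases h1 : M.W (f w - 1) y w
        · exact hg.low w (hT w hw0) y (Or.inl h1)
        · by_cases h2 : ∃ w', 0 < f w' ∧ w' ≠ w ∧ M.W (f w') y w'
          · obtain ⟨w', h3, h4, h5⟩ := h2
            by_cases hwL' : w' ∈ ((∅ ∪ L₁) ∪ L₂) ∪ ∅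
            · exact absurd (M.trans (M.symm hw) h5) (hind w (hLL w hwL) w' (hLL w' hwL')
                (Ne.symm h4))
            · exact hg.full w' (hT w' h3) hwL' y h5
          · exact hg.low w (hT w hw0) y (Or.inr ⟨hw, h1, fun w' h3 h4 h5 => h2 ⟨w', h3, h4, h5⟩⟩)
      · exact hg.full w (hT w hw0) hwL y hw

end Cfg

/-- **Core theorem**: under the hypotheses `Hyp` there is a dominating function of cost at most
the cost of `f`. -/
theorem exists_dominating (H : Hyp M f) :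
    ∃ g : V → ℕ, ∑ v, g v ≤ ∑ v, f v ∧ ∀ y, Cov M g y := by
  obtain ⟨𝓕, τ, C⟩ := exists_cfg H
  exact C.exists_dom

end Pool.Agent.H83.Bc
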