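import Mathlib

/-! # Broadcasts on graphs: definitions for MP_e7e1e7_co (helper83)

`G` is any finite simple graph, connected or not; distances and eccentricities are taken inside
the components. -/

namespace Pool.Agent.H83.Bcast

variable {V : Type*} [Fintype V] [DecidableEq V] (G : SimpleGraph V)

/-- `d(u,v) ≤ n` (in particular `u` and `v` lie in the same component) -/
def Within (n : ℕ) (u v : V) : Prop := G.Reachable u v ∧ G.dist u v ≤ n

/-- the eccentricity of `v` in its component: the largest distance from `v` to a vertex of its
component (`G.dist v u = 0` if `u` lies in another component) -/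
noncomputable def ecc (v : V) : ℕ := Finset.univ.sup fun u => G.dist v u

/-- broadcasts: `f(v) ≤ e(v)` for all `v` (so `f(v) ≤ e(v) ≤ diam` of the component) -/
def IsBroadcast (f : V → ℕ) : Prop := ∀ v, f v ≤ ecc G v

/-- the cost `σ(f)` -/
def cost (f : V → ℕ) : ℕ := ∑ v, f v

/-- `u` hears `f` from `v` -/
def Hears (f : V → ℕ) (u v : V) : Prop := 0 < f v ∧ Within G (f v) u v

/-- dominating broadcasts: every vertex hears -/
def IsDominating (f : V → ℕ) : Prop := IsBroadcast G f ∧ ∀ u, ∃ v, Hears G f u v

/-- the private boundary of `v`: the vertices at distance at most `f(v)` from `v` that do not hear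
the broadcast obtained by lowering the value at `v` by one -/
def PB (f : V → ℕ) (v : V) : Set V :=
  {u | Within G (f v) u v ∧ ¬ ∃ w, Hears G (Function.update f v (f v - 1)) u w}

/-- irredundant broadcasts -/
def Irredundant (f : V → ℕ) : Prop := IsBroadcast G f ∧ ∀ v, 0 < f v → (PB G f v).Nonempty

/-- maximal irredundant broadcasts -/
def MaxIrredundant (f : V → ℕ) : Prop :=
  Irredundant G f ∧ ∀ g : V → ℕ, IsBroadcast G g → f ≤ g → g ≠ f → ¬ Irredundant G g

/-- the lower irredundance number `ir_b(G)` -/
noncomputable def irb : ℕ := sInf {n | ∃ f, MaxIrredundant G f ∧ cost f = n}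

/-- the broadcast number `γ_b(G)` -/
noncomputable def gammab : ℕ := sInf {n | ∃ f, IsDominating G f ∧ cost f = n}

end Pool.Agent.H83.Bcast
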