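import Pool.Agent.H83.Bc.Core
import Pool.Agent.H83.Bc.Defs

/-! # From the core theorem to broadcasts on graphs (MP_e7e1e7_co, helper83) -/

namespace Pool.Agent.H83.Bcast

open Finset Pool.Agent.H83.Bc

set_option linter.unusedSectionVars false

variable {V : Type*} [Fintype V] [DecidableEq V] (G : SimpleGraph V)

theorem within_iff {n : ℕ} {u v : V} : Within G n u v ↔ ∃ p : G.Walk u v, p.length ≤ n := by
  constructor
  · rintro ⟨h, h'⟩
    obtain ⟨p, hp⟩ := h.exists_walk_length_eq_dist
    exact ⟨p, by omega⟩
  · rintro ⟨p, hp⟩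
    exact ⟨⟨p⟩, (SimpleGraph.dist_le p).trans hp⟩

theorem walk_split (m n : ℕ) : ∀ {u w : V} (p : G.Walk u w), p.length ≤ m + n →
    ∃ v, (∃ q : G.Walk u v, q.length ≤ m) ∧ ∃ r : G.Walk v w, r.length ≤ n := by
  induction m with
  | zero => intro u w p hp; exact ⟨u, ⟨.nil, by simp⟩, p, by omega⟩
  | succ m ih =>
    intro u w p hp
    cases p with
    | nil => exact ⟨u, ⟨.nil, by simp⟩, .nil, by simp⟩
    | cons h p' =>
      rw [SimpleGraph.Walk.length_cons] at hp
      obtain ⟨v, ⟨q, hq⟩, r, hr⟩ := ih p' (by omega)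
      exact ⟨v, ⟨.cons h q, by rw [SimpleGraph.Walk.length_cons]; omega⟩, r, hr⟩

/-- the distance relation of a graph -/
def nbh : Nbh V where
  W := Within G
  refl v := (within_iff G).2 ⟨.nil, by simp⟩
  symm {n u v} h := by
    obtain ⟨p, hp⟩ := (within_iff G).1 h
    exact (within_iff G).2 ⟨p.reverse, by simpa using hp⟩
  mono {m n u v} hmn h := ⟨h.1, h.2.trans hmn⟩
  trans {m n u v w} h h' := by
    obtain ⟨p, hp⟩ := (within_iff G).1 h
    obtain ⟨q, hq⟩ := (within_iff G).1 h'
    exact (within_iff G).2 ⟨p.append q, by rw [SimpleGraph.Walk.length_append]; omega⟩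
  split {m n u w} h := by
    obtain ⟨p, hp⟩ := (within_iff G).1 h
    obtain ⟨v, ⟨q, hq⟩, r, hr⟩ := walk_split G m n p hp
    exact ⟨v, (within_iff G).2 ⟨q, hq⟩, (within_iff G).2 ⟨r, hr⟩⟩

theorem dist_le_ecc (v u : V) : G.dist v u ≤ ecc G v :=
  Finset.le_sup (f := fun u => G.dist v u) (Finset.mem_univ u)

theorem adj_of_reachable_ne {u v : V} (h : G.Reachable u v) (hne : u ≠ v) : ∃ w, G.Adj u w := by
  obtain ⟨p⟩ := h
  cases p with
  | nil => exact absurd rfl hne
  | cons h _ => exact ⟨_, h⟩

/-- if there is a dominating broadcast then there are no isolated vertices -/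
theorem exists_adj {g : V → ℕ} (hg : IsDominating G g) (v : V) : ∃ w, G.Adj v w := by
  obtain ⟨w, hw0, hw⟩ := hg.2 v
  by_cases hvw : v = w
  · subst hvw
    have h1 : 0 < ecc G v := lt_of_lt_of_le hw0 (hg.1 v)
    by_contra hcon
    have : ecc G v = 0 := by
      unfold ecc
      rw [Finset.sup_eq_bot_iff _ _ |>.2]
      · rfl
      · intro u _
        by_cases huv : u = v
        · subst huv
          simp
        · by_cases hr : G.Reachable v u
          · exact absurd (adj_of_reachable_ne G hr (Ne.symm huv)) hcon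
          · exact SimpleGraph.dist_eq_zero_of_not_reachable hr
    omega
  · exact adj_of_reachable_ne G hw.1 hvw

theorem ecc_pos (hadj : ∀ v, ∃ w, G.Adj v w) (v : V) : 0 < ecc G v := by
  obtain ⟨w, hw⟩ := hadj v
  have h1 := dist_le_ecc G v w
  rw [SimpleGraph.dist_eq_one_iff_adj.2 hw] at h1
  omega

/-- conversely, if there are no isolated vertices then there is a dominating broadcast -/
theorem exists_isDominating (hadj : ∀ v, ∃ w, G.Adj v w) : ∃ g, IsDominating G g :=
  ⟨ecc G, fun _ => le_rfl, fun u => ⟨u, ecc_pos G hadj u, SimpleGraph.Reachable.refl u, by simp⟩⟩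

theorem mem_P_iff {f : V → ℕ} {v u : V} :
    u ∈ P (nbh G) f v ↔ Within G (f v) u v ∧ ¬ Within G (f v - 1) u v ∧
      ∀ w, 0 < f w → w ≠ v → ¬ Within G (f w) u w := Iff.rfl

theorem PB_sub {f : V → ℕ} {v : V} (h2 : 2 ≤ f v) : PB G f v ⊆ P (nbh G) f v := by
  rintro u ⟨h, h'⟩
  refine ⟨h, fun h3 => h' ⟨v, ?_, ?_⟩, fun w hw0 hwv hw => h' ⟨w, ?_, ?_⟩⟩
  · simp only [Function.update_self]
    omega
  · have h3' : Within G (f v - 1) u v := h3
    simpa using h3'
  · simpa [Function.update_of_ne hwv] using hw0
  · have hw' : Within G (f w) u w := hw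
    simpa [Function.update_of_ne hwv] using hw'

/-- raising `y` to the value `n` destroys the private boundary of some other vertex -/
theorem raise_kills {f : V → ℕ} (hf : MaxIrredundant G f) {y u : V} {n : ℕ} (hn : f y + 1 = n)
    (hne : n ≤ ecc G y) (hu : u ∈ U (nbh G) f) (huy : Within G n u y) :
    ∃ w, 0 < f w ∧ w ≠ y ∧ ∀ p ∈ P (nbh G) f w, Within G n p y := by
  have hb : IsBroadcast G (Function.update f y n) := by
    intro v
    by_cases h : v = y
    · subst h
      simpa using hne
    · simpa [Function.update_of_ne h] using hf.1.1 v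
  have hle : f ≤ Function.update f y n := by
    intro v
    by_cases h : v = y
    · subst h
      simp
      omega
    · simp [Function.update_of_ne h]
  have hne' : Function.update f y n ≠ f := by
    intro h
    have := congrFun h y
    simp at this
    omega
  have h1 := hf.2 _ hb hle hne'
  simp only [Irredundant, not_and, not_forall] at h1
  obtain ⟨w, hw0, hw⟩ := h1 hb
  rw [Set.not_nonempty_iff_eq_empty] at hw
  by_cases hwy : w = y
  · exfalso
    subst hwy
    have : u ∈ PB G (Function.update f w n) w := by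
      refine ⟨by simpa using huy, ?_⟩
      have e : Function.update (Function.update f w n) w
          (Function.update f w n w - 1) = f := by
        rw [Function.update_idem, Function.update_self, ← hn, Nat.add_sub_cancel,
          Function.update_eq_self]
      rw [e]
      rintro ⟨v, hv0, hv⟩
      exact hu v hv0 hv
    rw [hw] at this
    exact this
  · have hfw : 0 < f w := by simpa [Function.update_of_ne hwy] using hw0
    refine ⟨w, hfw, hwy, fun p hp => ?_⟩
    by_contra hcon
    obtain ⟨p1, p2, p3⟩ := (mem_P_iff G).1 hp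
    have : p ∈ PB G (Function.update f y n) w := by
      refine ⟨by simpa [Function.update_of_ne hwy] using p1, ?_⟩
      rintro ⟨v, hv0, hv⟩
      by_cases hvw : v = w
      · subst hvw
        rw [Function.update_self, Function.update_of_ne hwy] at hv
        exact p2 hv
      · rw [Function.update_of_ne hvw] at hv0 hv
        by_cases hvy : v = y
        · subst hvy
          rw [Function.update_self] at hv
          exact hcon hv
        · rw [Function.update_of_ne hvy] at hv0 hv
          exact p3 v hv0 hvw hv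
    rw [hw] at this
    exact this

theorem hyp_of_max {f : V → ℕ} (hadj : ∀ v, ∃ w, G.Adj v w) (hf : MaxIrredundant G f)
    (h2 : ∀ v, 0 < f v → 2 ≤ f v) : Hyp (nbh G) f where
  two := h2
  irr v hv := (hf.1.2 v hv).mono (PB_sub G (h2 v hv))
  A y := by
    rintro ⟨u, hu, huy⟩
    have hfy : f y = 0 := by
      by_contra h
      exact hu y (Nat.pos_of_ne_zero h) ((nbh G).mono (by omega) huy)
    obtain ⟨w, h3, -, h4⟩ := raise_kills G hf (n := 1) (by omega) (ecc_pos G hadj y) hu huy
    exact ⟨w, h3, h4⟩
  B v hv0 := by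
    rintro ⟨u, hu, huv⟩
    refine raise_kills G hf (n := f v + 1) rfl ?_ hu huv
    have h3 : ¬ Within G (f v) u v := hu v hv0
    have h4 := dist_le_ecc G v u
    rw [SimpleGraph.dist_comm] at h4
    by_contra h5
    exact h3 ⟨huv.1, by omega⟩

/-- **Main inequality**: `γ_b(G) ≤ σ(f)` for every maximal irredundant broadcast `f` all of whose
positive values are at least two. -/
theorem gammab_le {f : V → ℕ} (hadj : ∀ v, ∃ w, G.Adj v w) (hf : MaxIrredundant G f)
    (h2 : ∀ v, 0 < f v → 2 ≤ f v) : gammab G ≤ cost f := by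
  obtain ⟨g, hg, hg'⟩ := exists_dominating (hyp_of_max G hadj hf h2)
  have hdom : IsDominating G (fun v => min (g v) (ecc G v)) := by
    refine ⟨fun v => min_le_right _ _, fun y => ?_⟩
    obtain ⟨v, h0, h⟩ := hg' y
    refine ⟨v, lt_min h0 (ecc_pos G hadj v), h.1, le_min h.2 ?_⟩
    rw [SimpleGraph.dist_comm]
    exact dist_le_ecc G v y
  have h3 : gammab G ≤ cost (fun v => min (g v) (ecc G v)) := Nat.sInf_le ⟨_, hdom, rfl⟩
  refine h3.trans ?_
  exact (Finset.sum_le_sum fun v _ => min_le_left _ _).trans hg

theorem irb_le_gammab (hex : ∃ g, IsDominating G g) : irb G ≤ gammab G := by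
  obtain ⟨g₀, hg₀⟩ := hex
  obtain ⟨g, hg, hcost⟩ := Nat.sInf_mem (s := {n | ∃ f, IsDominating G f ∧ cost f = n})
    ⟨_, g₀, hg₀, rfl⟩
  change cost g = gammab G at hcost
  rw [← hcost]
  refine Nat.sInf_le ⟨g, ⟨⟨hg.1, ?_⟩, ?_⟩, rfl⟩
  · intro v hv
    by_contra hcon
    rw [Set.not_nonempty_iff_eq_empty] at hcon
    have hdom : IsDominating G (Function.update g v (g v - 1)) := by
      refine ⟨fun w => ?_, fun u => ?_⟩
      · by_cases h : w = v
        · subst h
          have := hg.1 w
          simp
          omega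
        · simpa [Function.update_of_ne h] using hg.1 w
      · by_contra h
        obtain ⟨w, hw0, hw⟩ := hg.2 u
        by_cases hwv : w = v
        · subst hwv
          have : u ∈ PB G g w := ⟨hw, h⟩
          rw [hcon] at this
          exact this
        · exact h ⟨w, by simpa [Function.update_of_ne hwv] using hw0,
            by simpa [Function.update_of_ne hwv] using hw⟩
    have hlt : cost (Function.update g v (g v - 1)) < cost g := by
      unfold cost
      refine Finset.sum_lt_sum (fun w _ => ?_) ⟨v, Finset.mem_univ v, ?_⟩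
      · by_cases h : w = v
        · subst h
          simp
        · simp [Function.update_of_ne h]
      · simp
        omega
    have : gammab G ≤ cost (Function.update g v (g v - 1)) := Nat.sInf_le ⟨_, hdom, rfl⟩
    omega
  · intro h hhb hle hne hirr
    obtain ⟨v, hv⟩ : ∃ v, g v < h v := by
      by_contra hcon
      exact hne (le_antisymm (fun v => not_lt.1 fun h' => hcon ⟨v, h'⟩) hle)
    obtain ⟨u, hu, hu'⟩ := hirr.2 v (by omega)
    obtain ⟨w, hw0, hw⟩ := hg.2 u
    have hle' : g w ≤ Function.update h v (h v - 1) w := by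
      by_cases hwv : w = v
      · subst hwv
        rw [Function.update_self]
        omega
      · rw [Function.update_of_ne hwv]
        exact hle w
    exact hu' ⟨w, by omega, hw.1, hw.2.trans hle'⟩

end Pool.Agent.H83.Bcast
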