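import Pool.Agent.H83.Bc.Base

/-! # Free sets and a maximal family of disjoint free sets (MP_e7e1e7_co, helper83) -/

namespace Pool.Agent.H83.Bc

open Finset

set_option linter.unusedSectionVars false

variable {V : Type*} (M : Nbh V) (f : V → ℕ)

/-- the private boundary of `v` -/
def P (v : V) : Set V :=
  {p | M.W (f v) p v ∧ ¬ M.W (f v - 1) p v ∧ ∀ w, 0 < f w → w ≠ v → ¬ M.W (f w) p w}

/-- the set of vertices that do not hear `f` -/
def U : Set V := {u | ∀ w, 0 < f w → ¬ M.W (f w) u w}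

/-- undominated vertices adjacent to the whole private boundary of `v` -/
def Uv (v : V) : Set V := {u | u ∈ U M f ∧ ∀ p ∈ P M f v, M.W 1 p u}

/-- The consequences of maximal irredundance that are used. -/
structure Hyp : Prop where
  two : ∀ v, 0 < f v → 2 ≤ f v
  irr : ∀ v, 0 < f v → (P M f v).Nonempty
  A : ∀ y, (∃ u ∈ U M f, M.W 1 u y) → ∃ w, 0 < f w ∧ ∀ p ∈ P M f w, M.W 1 p y
  B : ∀ v, 0 < f v → (∃ u ∈ U M f, M.W (f v + 1) u v) →
    ∃ t, 0 < f t ∧ t ≠ v ∧ ∀ p ∈ P M f t, M.W (f v + 1) p v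

/-- some point of `P v` is adjacent to some point of `P t` -/
def Near (v t : V) : Prop := ∃ p ∈ P M f v, ∃ r ∈ P M f t, M.W 1 p r

/-- contact through a vertex heard by both -/
def Far (v t : V) : Prop := ∃ x, ∃ r ∈ P M f t, M.W 1 r x ∧ M.W (f v) x v ∧ M.W (f t) x t

/-- `v` broadcasts and some undominated vertices are adjacent to all of `P v` -/
def InW (v : V) : Prop := 0 < f v ∧ (Uv M f v).Nonempty

variable {M f}

theorem Near.symm {v t : V} (h : Near M f v t) : Near M f t v := by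
  obtain ⟨p, hp, r, hr, h⟩ := h
  exact ⟨r, hr, p, hp, M.symm h⟩

namespace Hyp

variable (H : Hyp M f)
include H

theorem exists_tau {v : V} (hv : InW M f v) :
    ∃ t, 0 < f t ∧ t ≠ v ∧ (∀ p ∈ P M f t, M.W (f v + 1) p v) ∧
      (Near M f v t ∨ ∀ p ∈ P M f v, ∀ p' ∈ P M f v, M.W 1 p' p) := by
  obtain ⟨hv0, u, huU, hu⟩ := hv
  by_cases h : ∃ t, 0 < f t ∧ t ≠ v ∧ (∀ p ∈ P M f t, M.W (f v + 1) p v) ∧ Near M f v t
  · obtain ⟨t, h1, h2, h3, h4⟩ := h
    exact ⟨t, h1, h2, h3, Or.inl h4⟩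
  · obtain ⟨p₀, hp₀⟩ := H.irr v hv0
    obtain ⟨t, h1, h2, h3⟩ := H.B v hv0 ⟨u, huU, M.tr (M.symm (hu p₀ hp₀)) hp₀.1 (by omega)⟩
    refine ⟨t, h1, h2, h3, Or.inr ?_⟩
    intro p hp p' hp'
    obtain ⟨w, hw0, hw⟩ := H.A p ⟨u, huU, M.symm (hu p hp)⟩
    by_cases hwv : w = v
    · subst hwv
      exact hw p' hp'
    · exfalso
      obtain ⟨r, hr⟩ := H.irr w hw0
      exact h ⟨w, hw0, hwv, fun q hq => M.tr (hw q hq) hp.1 (by omega),
        ⟨p, hp, r, hr, M.symm (hw r hr)⟩⟩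

/-- every undominated vertex lies in some `Uv w` -/
theorem mem_Uv {u : V} (hu : u ∈ U M f) : ∃ w, 0 < f w ∧ u ∈ Uv M f w := by
  obtain ⟨w, hw0, hw⟩ := H.A u ⟨u, hu, M.mono (by omega) (M.refl u)⟩
  exact ⟨w, hw0, hu, hw⟩

end Hyp

/-- two points of `P v` are at distance at most two if `v ∈ W` -/
theorem P_diam {v : V} (hv : InW M f v) {p p' : V} (hp : p ∈ P M f v) (hp' : p' ∈ P M f v) :
    M.W 2 p p' := by
  obtain ⟨_, u, _, hu⟩ := hv
  exact M.tr (hu p hp) (M.symm (hu p' hp')) (by omega)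

theorem Uv_dist {v : V} {u p : V} (hu : u ∈ Uv M f v) (hp : p ∈ P M f v) : M.W 1 u p :=
  M.symm (hu.2 p hp)

/-! ### Free sets -/

variable [DecidableEq V]

variable (M f)

/-- the ball with centre `c` and radius `ρ` contains all `N_{f(a)+1}[a]`, `a ∈ S` -/
def CovB (S : Finset V) (ρ : ℕ) (c : V) : Prop := ∀ a ∈ S, ∃ k, M.W k a c ∧ k + f a + 1 ≤ ρ

/-- free sets -/
def SF (S : Finset V) : Prop :=
  S.Nonempty ∧ (∀ a ∈ S, 0 < f a) ∧ ∃ c, CovB M f S (∑ a ∈ S, f a) c

/-- disjoint families of free sets -/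
def Fam (𝓕 : Finset (Finset V)) : Prop :=
  (∀ S ∈ 𝓕, SF M f S) ∧ ∀ S ∈ 𝓕, ∀ S' ∈ 𝓕, S ≠ S' → Disjoint S S'

/-- a family of disjoint free sets with union of maximal size -/
structure MaxFam (𝓕 : Finset (Finset V)) : Prop where
  fam : Fam M f 𝓕
  max : ∀ 𝓕', Fam M f 𝓕' → (𝓕'.biUnion id).card ≤ (𝓕.biUnion id).card

theorem exists_maxFam [Fintype V] : ∃ 𝓕, MaxFam M f 𝓕 := by
  classical
  obtain ⟨𝓕, h1, h2⟩ := Finset.exists_max_image (Finset.univ.filter (fun 𝓕 => Fam M f 𝓕))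
    (fun 𝓕 => (𝓕.biUnion id).card) ⟨∅, by simp [Fam]⟩
  refine ⟨𝓕, (Finset.mem_filter.1 h1).2, fun 𝓕' h' => h2 𝓕' (by simp [h'])⟩

variable {M f}

variable {𝓕 : Finset (Finset V)}

namespace MaxFam

variable (X : MaxFam M f 𝓕)
include X

theorem M1 {S : Finset V} (hS : SF M f S) (hd : ∀ a ∈ S, a ∉ 𝓕.biUnion id) : False := by
  have hfam : Fam M f (insert S 𝓕) := by
    refine ⟨?_, ?_⟩
    · intro S' hS'
      rcases Finset.mem_insert.1 hS' with rfl | h
      · exact hS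
      · exact X.fam.1 _ h
    · intro S₁ h1 S₂ h2 hne
      have key : ∀ S' ∈ 𝓕, Disjoint S S' := by
        intro S' hS'
        rw [Finset.disjoint_left]
        intro a ha ha'
        exact hd a ha (Finset.mem_biUnion.2 ⟨S', hS', ha'⟩)
      rcases Finset.mem_insert.1 h1 with e1 | e1
      · rcases Finset.mem_insert.1 h2 with e2 | e2
        · exact absurd (e1.trans e2.symm) hne
        · rw [e1]
          exact key _ e2
      · rcases Finset.mem_insert.1 h2 with e2 | e2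
        · rw [e2]
          exact (key _ e1).symm
        · exact X.fam.2 _ e1 _ e2 hne
  have h := X.max _ hfam
  rw [Finset.biUnion_insert] at h
  simp only [id] at h
  have hdis : Disjoint S (𝓕.biUnion id) := Finset.disjoint_left.2 fun a ha ha' => hd a ha ha'
  have hcard := Finset.card_union_of_disjoint hdis
  have hpos := hS.1.card_pos
  have e : (S ∪ 𝓕.biUnion id).card = (S ∪ 𝓕.biUnion (fun x => x)).card := rfl
  have e' : (𝓕.biUnion id).card = (𝓕.biUnion (fun x => x)).card := rfl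
  omega

theorem M2 {F B : Finset V} (hF : F ∈ 𝓕) (hB : B.Nonempty) (hd : ∀ a ∈ B, a ∉ 𝓕.biUnion id)
    (hS : SF M f (F ∪ B)) : False := by
  have hfam : Fam M f (insert (F ∪ B) (𝓕.erase F)) := by
    refine ⟨?_, ?_⟩
    · intro S' hS'
      rcases Finset.mem_insert.1 hS' with rfl | h
      · exact hS
      · exact X.fam.1 _ (Finset.mem_of_mem_erase h)
    · intro S₁ h1 S₂ h2 hne
      have key : ∀ S' ∈ 𝓕.erase F, Disjoint (F ∪ B) S' := by
        intro S' hS'
        obtain ⟨hne', hS'⟩ := Finset.mem_erase.1 hS'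
        rw [Finset.disjoint_left]
        intro a ha ha'
        rcases Finset.mem_union.1 ha with h | h
        · exact (Finset.disjoint_left.1 (X.fam.2 _ hF _ hS' (Ne.symm hne'))) h ha'
        · exact hd a h (Finset.mem_biUnion.2 ⟨S', hS', ha'⟩)
      rcases Finset.mem_insert.1 h1 with e1 | e1
      · rcases Finset.mem_insert.1 h2 with e2 | e2
        · exact absurd (e1.trans e2.symm) hne
        · rw [e1]
          exact key _ e2
      · rcases Finset.mem_insert.1 h2 with e2 | e2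
        · rw [e2]
          exact (key _ e1).symm
        · exact X.fam.2 _ (Finset.mem_of_mem_erase e1) _ (Finset.mem_of_mem_erase e2) hne
  have h := X.max _ hfam
  have hsub : B ∪ 𝓕.biUnion id ⊆ (insert (F ∪ B) (𝓕.erase F)).biUnion id := by
    intro a ha
    rcases Finset.mem_union.1 ha with h' | h'
    · exact Finset.mem_biUnion.2 ⟨F ∪ B, Finset.mem_insert_self _ _, Finset.mem_union_right _ h'⟩
    · obtain ⟨S', hS', ha'⟩ := Finset.mem_biUnion.1 h'
      by_cases hSF : S' = F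
      · subst hSF
        exact Finset.mem_biUnion.2 ⟨S' ∪ B, Finset.mem_insert_self _ _,
          Finset.mem_union_left _ ha'⟩
      · exact Finset.mem_biUnion.2 ⟨S', Finset.mem_insert_of_mem
          (Finset.mem_erase.2 ⟨hSF, hS'⟩), ha'⟩
  have h3 := Finset.card_le_card hsub
  have hdis : Disjoint B (𝓕.biUnion id) := Finset.disjoint_left.2 fun a ha ha' => hd a ha ha'
  have hcard := Finset.card_union_of_disjoint hdis
  have hpos := hB.card_pos
  omega

end MaxFam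

variable (f) in
/-- the elements not in the union of the family -/
def R (𝓕 : Finset (Finset V)) (a : V) : Prop := 0 < f a ∧ a ∉ 𝓕.biUnion id

namespace MaxFam

variable (X : MaxFam M f 𝓕) (H : Hyp M f)
include X H

theorem H3 {u v w x : V} (hu : R f 𝓕 u) (hv : R f 𝓕 v) (hw : R f 𝓕 w) (huv : u ≠ v)
    (huw : u ≠ w) (hvw : v ≠ w) (Wu : M.W (f u + 1) x u) (Wv : M.W (f v + 1) x v)
    (Ww : M.W (f w + 1) x w) : False := by
  obtain ⟨p, ka, kb, kc, g1, g2, g3, e1, e2, e3⟩ := M.hub (ma := 1) (mb := 1) (mc := 1)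
    (H.two u hu.1) (H.two v hv.1) (H.two w hw.1) Wu Wv Ww (by omega) (by omega) (by omega)
    (by omega) (by omega) (by omega)
  refine X.M1 (S := {u, v, w}) ⟨⟨u, by simp⟩, ?_, p, ?_⟩ ?_
  · intro a ha
    simp only [Finset.mem_insert, Finset.mem_singleton] at ha
    rcases ha with rfl | rfl | rfl
    exacts [hu.1, hv.1, hw.1]
  · have hs : ∑ a ∈ ({u, v, w} : Finset V), f a = f u + f v + f w := by
      rw [Finset.sum_insert (by simp [huv, huw]), Finset.sum_insert (by simp [hvw]),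
        Finset.sum_singleton]
      ring
    intro a ha
    rw [hs]
    simp only [Finset.mem_insert, Finset.mem_singleton] at ha
    rcases ha with rfl | rfl | rfl
    exacts [⟨ka, g1, e1⟩, ⟨kb, g2, e2⟩, ⟨kc, g3, e3⟩]
  · intro a ha
    simp only [Finset.mem_insert, Finset.mem_singleton] at ha
    rcases ha with rfl | rfl | rfl
    exacts [hu.2, hv.2, hw.2]

theorem hubF {v w x c : V} {F : Finset V} (hF : F ∈ 𝓕) (hc : CovB M f F (∑ a ∈ F, f a) c)
    (hv : R f 𝓕 v) (hw : R f 𝓕 w) (hvw : v ≠ w) (Wv : M.W (f v + 1) x v)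
    (Ww : M.W (f w + 1) x w) (Wc : M.W (∑ a ∈ F, f a) x c) : False := by
  obtain ⟨a₀, ha₀⟩ := (X.fam.1 F hF).1
  obtain ⟨k₀, _, hk₀⟩ := hc a₀ ha₀
  have h2 := H.two a₀ ((X.fam.1 F hF).2.1 a₀ ha₀)
  obtain ⟨p, ka, kb, kc, g1, g2, g3, e1, e2, e3⟩ := M.hub (ma := 1) (mb := 1) (mc := 0)
    (c := ∑ a ∈ F, f a)
    (H.two v hv.1) (H.two w hw.1) (by omega) Wv Ww Wc (by omega) (by omega) (by omega)
    (by omega) (by omega) (by omega)
  have hvF : v ∉ F := fun h => hv.2 (Finset.mem_biUnion.2 ⟨F, hF, h⟩)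
  have hwF : w ∉ F := fun h => hw.2 (Finset.mem_biUnion.2 ⟨F, hF, h⟩)
  have hs : ∑ a ∈ F ∪ {v, w}, f a = f v + f w + ∑ a ∈ F, f a := by
    rw [Finset.sum_union (by
      rw [Finset.disjoint_right]
      intro a ha
      simp only [Finset.mem_insert, Finset.mem_singleton] at ha
      rcases ha with rfl | rfl
      exacts [hvF, hwF]), Finset.sum_pair hvw]
    ring
  refine X.M2 (B := {v, w}) hF ⟨v, by simp⟩ ?_ ⟨⟨v, by simp⟩, ?_, p, ?_⟩
  · intro a ha
    simp only [Finset.mem_insert, Finset.mem_singleton] at ha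
    rcases ha with rfl | rfl
    exacts [hv.2, hw.2]
  · intro a ha
    simp only [Finset.mem_union, Finset.mem_insert, Finset.mem_singleton] at ha
    rcases ha with h | rfl | rfl
    exacts [(X.fam.1 F hF).2.1 a h, hv.1, hw.1]
  · intro a ha
    rw [hs]
    simp only [Finset.mem_union, Finset.mem_insert, Finset.mem_singleton] at ha
    rcases ha with h | rfl | rfl
    · obtain ⟨k, hk, hk'⟩ := hc a h
      exact ⟨k + kc, M.trans hk g3, by omega⟩
    exacts [⟨ka, g1, by omega⟩, ⟨kb, g2, by omega⟩]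

theorem no_overlap {a b : V} {F : Finset V} (hF : F ∈ 𝓕) (ha : a ∈ F) (hb : R f 𝓕 b)
    (h : M.W (f a + f b) a b) : False := by
  obtain ⟨c, hc⟩ := (X.fam.1 F hF).2.2
  obtain ⟨k, hk, hk'⟩ := hc a ha
  have hbF : b ∉ F := fun h => hb.2 (Finset.mem_biUnion.2 ⟨F, hF, h⟩)
  have h1 : M.W (f b + (∑ a ∈ F, f a - 1)) c b := M.tr (M.symm hk) h (by omega)
  obtain ⟨p, g1, g2⟩ := M.split h1
  have hs : ∑ a ∈ F ∪ {b}, f a = f b + ∑ a ∈ F, f a := by
    rw [Finset.sum_union (by simpa using hbF), Finset.sum_singleton]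
    ring
  refine X.M2 (B := {b}) hF ⟨b, by simp⟩ (by simpa using hb.2) ⟨⟨b, by simp⟩, ?_, p, ?_⟩
  · intro a ha
    simp only [Finset.mem_union, Finset.mem_singleton] at ha
    rcases ha with h | rfl
    exacts [(X.fam.1 F hF).2.1 a h, hb.1]
  · intro a ha
    rw [hs]
    simp only [Finset.mem_union, Finset.mem_singleton] at ha
    rcases ha with h | rfl
    · obtain ⟨k, hk, hk'⟩ := hc a h
      exact ⟨k + f b, M.trans hk g1, by omega⟩
    · exact ⟨_, M.symm g2, by omega⟩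

/-- at most two contact neighbours in the rest -/
theorem H4 {b x y z : V} (hb : R f 𝓕 b) (hx : R f 𝓕 x) (hy : R f 𝓕 y) (hz : R f 𝓕 z)
    (bx : b ≠ x) (b_y : b ≠ y) (bz : b ≠ z) (xy : x ≠ y) (xz : x ≠ z) (yz : y ≠ z)
    (W1 : M.W (f b + f x + 1) b x) (W2 : M.W (f b + f y + 1) b y)
    (W3 : M.W (f b + f z + 1) b z) : False := by
  obtain ⟨p, k0, k1, k2, k3, g0, g1, g2, g3, e0, e1, e2, e3⟩ := M.star (H.two x hx.1)
    (H.two y hy.1) (H.two z hz.1) W1 W2 W3
  have hs : ∑ a ∈ ({b, x, y, z} : Finset V), f a = f b + f x + f y + f z := by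
    rw [Finset.sum_insert (by simp [bx, b_y, bz]), Finset.sum_insert (by simp [xy, xz]),
      Finset.sum_insert (by simp [yz]), Finset.sum_singleton]
    ring
  refine X.M1 (S := {b, x, y, z}) ⟨⟨b, by simp⟩, ?_, p, ?_⟩ ?_
  · intro a ha
    simp only [Finset.mem_insert, Finset.mem_singleton] at ha
    rcases ha with rfl | rfl | rfl | rfl
    exacts [hb.1, hx.1, hy.1, hz.1]
  · intro a ha
    rw [hs]
    simp only [Finset.mem_insert, Finset.mem_singleton] at ha
    rcases ha with rfl | rfl | rfl | rfl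
    exacts [⟨k0, g0, e0⟩, ⟨k1, g1, e1⟩, ⟨k2, g2, e2⟩, ⟨k3, g3, e3⟩]
  · intro a ha
    simp only [Finset.mem_insert, Finset.mem_singleton] at ha
    rcases ha with rfl | rfl | rfl | rfl
    exacts [hb.2, hx.2, hy.2, hz.2]

end MaxFam

end Pool.Agent.H83.Bc
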