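import Pool.Agent.H83.Bc.Chain
import Pool.Agent.H83.Bc.Colour
import Pool.Agent.H83.Bc.Attach

/-! # Two-state pairs (MP_e7e1e7_co, helper83) -/

namespace Pool.Agent.H83.Bc

open Finset

set_option linter.unusedSectionVars false

variable {V : Type*} [Fintype V] [DecidableEq V]

section defs

variable (M : Nbh V) (f : V → ℕ) (𝓕 : Finset (Finset V)) (τ : V → V)

/-- tails of two-state pairs -/
def Tl (v : V) : Prop :=
  (Arc M f 𝓕 τ v ∧ Near M f v (τ v)) ∨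
  (BF M f 𝓕 τ v ∧ ¬ InW M f (τ v) ∧ ¬ ∃ w, BF M f 𝓕 τ w ∧ τ w = v) ∨
  (BF M f 𝓕 τ v ∧ InW M f (τ v) ∧ τ (τ v) = v)

/-- elements of two-state pairs -/
def EE (v : V) : Prop := Tl M f 𝓕 τ v ∨ ∃ w, Tl M f 𝓕 τ w ∧ τ w = v

open Classical in
/-- the partner in the pair -/
noncomputable def pt (v : V) : V :=
  if Tl M f 𝓕 τ v then τ v else if h : ∃ w, Tl M f 𝓕 τ w ∧ τ w = v then h.choose else v

end defs

variable {M : Nbh V} {f : V → ℕ} {𝓕 : Finset (Finset V)} {τ : V → V}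

theorem Tl.arc {v : V} (h : Tl M f 𝓕 τ v) : Arc M f 𝓕 τ v := by
  rcases h with h | h | h
  exacts [h.1, h.1.1, h.1.1]

namespace Cfg

variable (C : Cfg M f 𝓕 τ)
include C

theorem Tl_Tl {v : V} (h : Tl M f 𝓕 τ v) (h' : Tl M f 𝓕 τ (τ v)) : τ (τ v) = v := by
  rcases h with ⟨ha, hn⟩ | ⟨h1, h2, h3⟩ | ⟨h1, h2, h3⟩
  · rcases h' with ⟨ha', hn'⟩ | ⟨h1', _⟩ | ⟨h1', _⟩
    · by_contra hne
      exact C.in_near ha.1 ha.2.1 ha.2.2 ha'.2.2 hne (C.tau _ ha'.2.1).2.1 hn'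
    · exact absurd rfl (h1'.2.2 v ha hn)
    · exact absurd rfl (h1'.2.2 v ha hn)
  · exact absurd h'.arc.2.1 h2
  · exact h3

theorem Tl_sv {v : V} (h : Tl M f 𝓕 τ v) :
    Sv M f {v, τ v} {v} ∧ Sv M f {v, τ v} {τ v} := by
  have ha := h.arc
  obtain ⟨h0, hne, hP, hcl⟩ := C.tau v ha.2.1
  have hc : ({v, τ v} : Finset V) = {τ v, v} := Finset.pair_comm _ _
  rcases h with ⟨_, hn⟩ | ⟨h1, h2, h3⟩ | ⟨h1, h2, h3⟩
  · refine ⟨sv_near C.H ha.2.1 h0 hne hn, ?_⟩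
    by_cases hW : InW M f (τ v)
    · rw [hc]
      exact sv_near C.H hW ha.1.1 (Ne.symm hne) hn.symm
    · exact sv_raise C.H ha.2.1 h0 hW hne hP
  · exact ⟨sv_self C.H ha.2.1 h0 h2 hne (hcl.resolve_left h1.2.1),
      sv_raise C.H ha.2.1 h0 h2 hne hP⟩
  · refine ⟨?_, sv_far C.H ha.2.1 h2 hne (C.BF_far h1)⟩
    rw [hc]
    have := C.BF_far (C.BF_tau h1 h2)
    rw [h3] at this
    exact sv_far C.H h2 ha.2.1 (Ne.symm hne) this

theorem pt_tl {v : V} (h : Tl M f 𝓕 τ v) : pt M f 𝓕 τ v = τ v := by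
  simp [pt, h]

theorem pt_head {v : V} (h : Tl M f 𝓕 τ v) : pt M f 𝓕 τ (τ v) = v := by
  by_cases h' : Tl M f 𝓕 τ (τ v)
  · rw [C.pt_tl h']
    exact C.Tl_Tl h h'
  · have hex : ∃ w, Tl M f 𝓕 τ w ∧ τ w = τ v := ⟨v, h, rfl⟩
    rw [pt, if_neg h', dif_pos hex]
    exact C.arc_inj hex.choose_spec.1.arc h.arc hex.choose_spec.2

theorem pt_EE {v : V} (h : EE M f 𝓕 τ v) :
    EE M f 𝓕 τ (pt M f 𝓕 τ v) ∧ pt M f 𝓕 τ (pt M f 𝓕 τ v) = v ∧ pt M f 𝓕 τ v ≠ v := by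
  rcases h with h | ⟨w, h, rfl⟩
  · rw [C.pt_tl h]
    exact ⟨Or.inr ⟨v, h, rfl⟩, C.pt_head h, (C.tau v h.arc.2.1).2.1⟩
  · rw [C.pt_head h, C.pt_tl h]
    exact ⟨Or.inl h, rfl, Ne.symm (C.tau w h.arc.2.1).2.1⟩

theorem EE_R {v : V} (h : EE M f 𝓕 τ v) : R f 𝓕 v := by
  rcases h with h | ⟨w, h, rfl⟩
  exacts [h.arc.1, h.arc.2.2]

theorem EE_contact {v : V} (h : EE M f 𝓕 τ v) :
    M.W (f v + f (pt M f 𝓕 τ v) + 1) v (pt M f 𝓕 τ v) := by
  rcases h with h | ⟨w, h, rfl⟩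
  · rw [C.pt_tl h]
    exact C.contact h.arc.2.1
  · rw [C.pt_head h]
    exact M.mono (by omega) (M.symm (C.contact h.arc.2.1))

theorem EE_sv {v : V} (h : EE M f 𝓕 τ v) : Sv M f {v, pt M f 𝓕 τ v} {v} := by
  rcases h with h | ⟨w, h, rfl⟩
  · rw [C.pt_tl h]
    exact (C.Tl_sv h).1
  · rw [C.pt_head h, Finset.pair_comm]
    exact (C.Tl_sv h).2

/-- all pairs can be served, lowering one end of each, without overlaps of lowered elements -/
theorem serveE (E : Finset V) (hE : ∀ v, v ∈ E ↔ EE M f 𝓕 τ v) :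
    ∃ L, Sv M f E L ∧ L ⊆ E ∧ ∀ a ∈ L, ∀ b ∈ L, a ≠ b → ¬ M.W (f a + f b) a b := by
  obtain ⟨L, hL1, hL2, hL3⟩ := two_colour (pt M f 𝓕 τ) E.card E (fun a b => M.W (f a + f b) a b)
    rfl
    (by
      intro a ha
      obtain ⟨h1, h2, h3⟩ := C.pt_EE ((hE a).1 ha)
      exact ⟨(hE _).2 h1, h2, h3⟩)
    (by
      intro a b h
      rw [add_comm]
      exact M.symm h)
    (by
      intro a ha b hb c hc hab hac hba hca hbπ hcπ
      by_contra hbc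
      have ha' := (hE a).1 ha
      obtain ⟨h1, h2, h3⟩ := C.pt_EE ha'
      exact C.X.H4 C.H (C.EE_R ha') (C.EE_R h1) (C.EE_R ((hE b).1 hb)) (C.EE_R ((hE c).1 hc))
        (Ne.symm h3) (Ne.symm hba) (Ne.symm hca) (Ne.symm hbπ) (Ne.symm hcπ) hbc
        (C.EE_contact ha') (M.mono (by omega) hab) (M.mono (by omega) hac))
  refine ⟨L, ?_, hL1, hL3⟩
  have h1 : Sv M f (L.biUnion fun v => {v, pt M f 𝓕 τ v}) (L.biUnion fun v => {v}) := by
    refine Sv.biUnion (fun v hv => C.EE_sv ((hE v).1 (hL1 hv))) ?_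
    intro v hv w hw hvw
    obtain ⟨-, h2, h3⟩ := C.pt_EE ((hE v).1 (hL1 hv))
    obtain ⟨-, h2', h3'⟩ := C.pt_EE ((hE w).1 (hL1 hw))
    have key : ∀ x ∈ L, pt M f 𝓕 τ x ∉ L := by
      intro x hx
      rcases hL2 x (hL1 hx) with h | h
      · exact h.2
      · exact absurd hx h.1
    rw [Finset.disjoint_left]
    intro a ha ha'
    simp only [Finset.mem_insert, Finset.mem_singleton] at ha ha'
    rcases ha with rfl | rfl
    · rcases ha' with h | h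
      · exact hvw h
      · exact key w hw (h ▸ hv)
    · rcases ha' with h | h
      · exact key v hv (h ▸ hw)
      · exact hvw (by rw [← h2, h, h2'])
  have e1 : L.biUnion (fun v => ({v, pt M f 𝓕 τ v} : Finset V)) = E := by
    ext x
    simp only [Finset.mem_biUnion, Finset.mem_insert, Finset.mem_singleton]
    constructor
    · rintro ⟨v, hv, rfl | rfl⟩
      · exact hL1 hv
      · exact (hE _).2 (C.pt_EE ((hE v).1 (hL1 hv))).1
    · intro hx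
      rcases hL2 x hx with h | h
      · exact ⟨x, h.1, Or.inl rfl⟩
      · exact ⟨_, h.2, Or.inr (C.pt_EE ((hE x).1 hx)).2.1.symm⟩
  have e2 : L.biUnion (fun v => ({v} : Finset V)) = L := by
    ext x
    simp
  rwa [e1, e2] at h1

end Cfg

end Pool.Agent.H83.Bc
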