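import Pool.Agent.H83.Bc.Arcs

/-! # Local services (MP_e7e1e7_co, helper83) -/

namespace Pool.Agent.H83.Bc

open Finset

set_option linter.unusedSectionVars false

variable {V : Type*} [Fintype V] [DecidableEq V] (M : Nbh V) (f : V → ℕ)

/-- `y` hears `g` -/
def Cov (g : V → ℕ) (y : V) : Prop := ∃ v, 0 < g v ∧ M.W (g v) y v

/-- a local service of the set `S`: a broadcast of cost at most `f(S)` that covers all that is
covered by `S`, except that the radius of the elements of `L` may be smaller by one -/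
structure Srv (S L : Finset V) (g : V → ℕ) : Prop where
  sub : L ⊆ S
  cost : ∑ v, g v ≤ ∑ a ∈ S, f a
  full : ∀ a ∈ S, a ∉ L → ∀ y, M.W (f a) y a → Cov M g y
  low : ∀ a ∈ S, ∀ y, (M.W (f a - 1) y a ∨ y ∈ P M f a) → Cov M g y
  und : ∀ a ∈ S, ∀ u ∈ Uv M f a, Cov M g u

/-- there is a local service -/
def Sv (S L : Finset V) : Prop := ∃ g, Srv M f S L g

variable {M f}

theorem Cov.add_left {g g' : V → ℕ} {y : V} (h : Cov M g y) : Cov M (g + g') y := by
  obtain ⟨v, h1, h2⟩ := h
  exact ⟨v, by simp; omega, M.mono (by simp) h2⟩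

theorem Cov.add_right {g g' : V → ℕ} {y : V} (h : Cov M g' y) : Cov M (g + g') y := by
  obtain ⟨v, h1, h2⟩ := h
  exact ⟨v, by simp; omega, M.mono (by simp) h2⟩

theorem Sv.union {S₁ S₂ L₁ L₂ : Finset V} (h1 : Sv M f S₁ L₁) (h2 : Sv M f S₂ L₂)
    (hd : Disjoint S₁ S₂) : Sv M f (S₁ ∪ S₂) (L₁ ∪ L₂) := by
  obtain ⟨g, hg⟩ := h1
  obtain ⟨g', hg'⟩ := h2
  refine ⟨g + g', Finset.union_subset_union hg.sub hg'.sub, ?_, ?_, ?_, ?_⟩
  · rw [Finset.sum_union hd]
    simp only [Pi.add_apply, Finset.sum_add_distrib]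
    exact Nat.add_le_add hg.cost hg'.cost
  · intro a ha haL y hy
    rw [Finset.mem_union, not_or] at haL
    rcases Finset.mem_union.1 ha with h | h
    · exact (hg.full a h haL.1 y hy).add_left
    · exact (hg'.full a h haL.2 y hy).add_right
  · intro a ha y hy
    rcases Finset.mem_union.1 ha with h | h
    · exact (hg.low a h y hy).add_left
    · exact (hg'.low a h y hy).add_right
  · intro a ha y hy
    rcases Finset.mem_union.1 ha with h | h
    · exact (hg.und a h y hy).add_left
    · exact (hg'.und a h y hy).add_right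

theorem Sv.empty : Sv M f ∅ ∅ :=
  ⟨0, by simp, by simp, by simp, by simp, by simp⟩

theorem Sv.biUnion {ι : Type*} [DecidableEq ι] {I : Finset ι} {S L : ι → Finset V}
    (h : ∀ i ∈ I, Sv M f (S i) (L i))
    (hd : ∀ i ∈ I, ∀ j ∈ I, i ≠ j → Disjoint (S i) (S j)) :
    Sv M f (I.biUnion S) (I.biUnion L) := by
  induction I using Finset.induction_on with
  | empty => simpa using Sv.empty
  | insert i I hi ih =>
    rw [Finset.biUnion_insert, Finset.biUnion_insert]
    refine (h i (Finset.mem_insert_self _ _)).union (ih (fun j hj => h j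
      (Finset.mem_insert_of_mem hj)) (fun j hj k hk => hd j (Finset.mem_insert_of_mem hj) k
        (Finset.mem_insert_of_mem hk))) ?_
    rw [Finset.disjoint_biUnion_right]
    intro j hj
    exact hd i (Finset.mem_insert_self _ _) j (Finset.mem_insert_of_mem hj)
      (fun h => hi (h ▸ hj))

theorem cov_single {c y : V} {ρ : ℕ} (hρ : 0 < ρ) (h : M.W ρ y c) :
    Cov M (Pi.single c ρ) y := ⟨c, by simpa using hρ, by simpa using h⟩

theorem sum_single (c : V) (ρ : ℕ) : ∑ v, (Pi.single c ρ : V → ℕ) v = ρ := by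
  rw [Finset.sum_pi_single']
  simp

/-- elements outside of `W` -/
theorem sv_single {v : V} (hv0 : 0 < f v) (hv : ¬ InW M f v) : Sv M f {v} ∅ := by
  refine ⟨Pi.single v (f v), by simp, by rw [sum_single]; simp, ?_, ?_, ?_⟩
  · intro a ha _ y hy
    rw [Finset.mem_singleton] at ha
    subst ha
    exact cov_single hv0 hy
  · intro a ha y hy
    rw [Finset.mem_singleton] at ha
    subst ha
    refine cov_single hv0 ?_
    rcases hy with h | h
    · exact M.mono (by omega) h
    · exact h.1
  · intro a ha y hy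
    rw [Finset.mem_singleton] at ha
    subst ha
    exact absurd ⟨hv0, y, hy⟩ hv

/-- undominated vertices of `Uv v` are at distance at most `f v + 1` from `v` -/
theorem Uv_W (H : Hyp M f) {v u : V} (hv0 : 0 < f v) (hu : u ∈ Uv M f v) :
    M.W (f v + 1) u v := by
  obtain ⟨p, hp⟩ := H.irr v hv0
  exact M.tr (Uv_dist hu hp) hp.1 (by omega)

/-- a ball serving a set `S` in which the elements of `L` (at most one) are lowered -/
theorem sv_ball (H : Hyp M f) {S L : Finset V} {c : V} (hS : S.Nonempty) (hL : L ⊆ S)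
    (hpos : ∀ a ∈ S, 0 < f a)
    (h1 : ∀ a ∈ S, a ∉ L → ∃ k, M.W k a c ∧ k + f a ≤ ∑ b ∈ S, f b)
    (h2 : ∀ a ∈ L, ∃ k, M.W k a c ∧ k + f a ≤ ∑ b ∈ S, f b + 1)
    (h3 : ∀ a ∈ S, (∃ k, M.W k a c ∧ k + f a + 1 ≤ ∑ b ∈ S, f b) ∨
      (∀ y ∈ P M f a, M.W (∑ b ∈ S, f b) y c) ∧ ∀ u ∈ Uv M f a, M.W (∑ b ∈ S, f b) u c) :
    Sv M f S L := by
  have hρ : 0 < ∑ b ∈ S, f b := by
    obtain ⟨a, ha⟩ := hS
    exact Finset.sum_pos hpos ⟨a, ha⟩
  refine ⟨Pi.single c (∑ b ∈ S, f b), hL, by rw [sum_single], ?_, ?_, ?_⟩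
  · intro a ha haL y hy
    obtain ⟨k, hk, hk'⟩ := h1 a ha haL
    exact cov_single hρ (M.tr hy hk (by omega))
  · intro a ha y hy
    have hfa := hpos a ha
    rcases hy with hy | hy
    · by_cases haL : a ∈ L
      · obtain ⟨k, hk, hk'⟩ := h2 a haL
        exact cov_single hρ (M.tr hy hk (by omega))
      · obtain ⟨k, hk, hk'⟩ := h1 a ha haL
        exact cov_single hρ (M.tr hy hk (by omega))
    · rcases h3 a ha with ⟨k, hk, hk'⟩ | ⟨h4, h5⟩
      · exact cov_single hρ (M.tr hy.1 hk (by omega))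
      · exact cov_single hρ (h4 y hy)
  · intro a ha u hu
    rcases h3 a ha with ⟨k, hk, hk'⟩ | ⟨h4, h5⟩
    · exact cov_single hρ (M.tr (Uv_W H (hpos a ha) hu) hk (by omega))
    · exact cov_single hρ (h5 u hu)

/-- if `x` is near a point of `P a` then a ball around `x` covers `P a` and `Uv a` -/
theorem near_cover {a r x c : V} {n ρ : ℕ} (ha : InW M f a) (hr : r ∈ P M f a)
    (hrx : M.W 1 r x) (hx : M.W n x c) (hn : n + 3 ≤ ρ) :
    (∀ y ∈ P M f a, M.W ρ y c) ∧ ∀ u ∈ Uv M f a, M.W ρ u c :=
  ⟨fun y hy => M.tr (M.tr (P_diam ha hy hr) hrx le_rfl) hx (by omega),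
    fun u hu => M.tr (M.tr (Uv_dist hu hr) hrx le_rfl) hx (by omega)⟩

theorem near_cover' {a r c : V} {n ρ : ℕ} (ha : InW M f a) (hr : r ∈ P M f a)
    (hx : M.W n r c) (hn : n + 2 ≤ ρ) :
    (∀ y ∈ P M f a, M.W ρ y c) ∧ ∀ u ∈ Uv M f a, M.W ρ u c :=
  ⟨fun y hy => M.tr (P_diam ha hy hr) hx (by omega),
    fun u hu => M.tr (Uv_dist hu hr) hx (by omega)⟩

/-- raise `a` and lower `b` -/
theorem sv_raise (H : Hyp M f) {a b : V} (ha : InW M f a) (hb0 : 0 < f b) (hb : ¬ InW M f b)
    (hab : b ≠ a) (hP : ∀ p ∈ P M f b, M.W (f a + 1) p a) : Sv M f {a, b} {b} := by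
  have hfb := H.two b hb0
  refine ⟨Pi.single a (f a + 1) + Pi.single b (f b - 1), by simp, ?_, ?_, ?_, ?_⟩
  · simp only [Pi.add_apply, Finset.sum_add_distrib]
    rw [sum_single, sum_single, Finset.sum_pair (Ne.symm hab)]
    omega
  · intro y hy hyb z hz
    have : y = a := by
      simp only [Finset.mem_insert, Finset.mem_singleton] at hy hyb
      tauto
    subst this
    exact (cov_single (by omega) (M.mono (by omega) hz)).add_left
  · intro y hy z hz
    simp only [Finset.mem_insert, Finset.mem_singleton] at hy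
    rcases hy with rfl | rfl
    · refine (cov_single (by omega) ?_).add_left
      rcases hz with h | h
      · exact M.mono (by omega) h
      · exact M.mono (by omega) h.1
    · rcases hz with h | h
      · exact (cov_single (by omega) h).add_right
      · exact (cov_single (by omega) (hP z h)).add_left
  · intro y hy u hu
    simp only [Finset.mem_insert, Finset.mem_singleton] at hy
    rcases hy with rfl | rfl
    · exact (cov_single (by omega) (Uv_W H ha.1 hu)).add_left
    · exact absurd ⟨hb0, u, hu⟩ hb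

/-- self-lower `a`, leave `b` -/
theorem sv_self (H : Hyp M f) {a b : V} (ha : InW M f a) (hb0 : 0 < f b) (hb : ¬ InW M f b)
    (hab : b ≠ a) (hP : ∀ p ∈ P M f a, ∀ p' ∈ P M f a, M.W 1 p' p) : Sv M f {a, b} {a} := by
  have hfa := H.two a ha.1
  obtain ⟨p, hp⟩ := H.irr a ha.1
  refine ⟨Pi.single p 1 + (Pi.single a (f a - 1) + Pi.single b (f b)), by simp, ?_, ?_, ?_, ?_⟩
  · simp only [Pi.add_apply, Finset.sum_add_distrib]
    rw [sum_single, sum_single, sum_single, Finset.sum_pair (Ne.symm hab)]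
    omega
  · intro y hy hyb z hz
    have : y = b := by
      simp only [Finset.mem_insert, Finset.mem_singleton] at hy hyb
      tauto
    subst this
    exact (cov_single hb0 hz).add_right.add_right
  · intro y hy z hz
    simp only [Finset.mem_insert, Finset.mem_singleton] at hy
    rcases hy with rfl | rfl
    · rcases hz with h | h
      · exact (cov_single (by omega) h).add_left.add_right
      · exact (cov_single (by omega) (hP p hp z h)).add_left
    · refine (cov_single hb0 ?_).add_right.add_right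
      rcases hz with h | h
      · exact M.mono (by omega) h
      · exact h.1
  · intro y hy u hu
    simp only [Finset.mem_insert, Finset.mem_singleton] at hy
    rcases hy with rfl | rfl
    · exact (cov_single (by omega) (Uv_dist hu hp)).add_left
    · exact absurd ⟨hb0, u, hu⟩ hb

/-- near pair, lower `a` where `a ∈ W`; `b` arbitrary -/
theorem sv_near (H : Hyp M f) {a b : V} (ha : InW M f a) (hb0 : 0 < f b) (hab : b ≠ a)
    (hn : Near M f a b) : Sv M f {a, b} {a} := by
  obtain ⟨p, hp, r, hr, hpr⟩ := hn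
  have hfa := H.two a ha.1
  have hfb := H.two b hb0
  -- walk `b - r - p - a`, position `f a` from `b`
  obtain ⟨c, g1, g2, g3, g4⟩ := M.pos3 (s := f a) (M.symm hr.1) (M.symm hpr) hp.1 (by omega)
  have hsum : ∑ x ∈ ({a, b} : Finset V), f x = f a + f b := Finset.sum_pair (Ne.symm hab)
  refine sv_ball H (c := c) ⟨a, by simp⟩ (by simp) ?_ ?_ ?_ ?_
  · intro x hx
    simp only [Finset.mem_insert, Finset.mem_singleton] at hx
    rcases hx with rfl | rfl
    exacts [ha.1, hb0]
  · intro x hx hxa
    have : x = b := by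
      simp only [Finset.mem_insert, Finset.mem_singleton] at hx hxa
      tauto
    subst this
    exact ⟨f a, g1, by omega⟩
  · intro x hx
    rw [Finset.mem_singleton] at hx
    subst hx
    exact ⟨_, g4, by omega⟩
  · intro x hx
    rw [hsum]
    simp only [Finset.mem_insert, Finset.mem_singleton] at hx
    rcases hx with rfl | rfl
    · right
      exact near_cover' ha hp g3 (by omega)
    · right
      refine ⟨fun y hy => M.tr hy.1 g1 (by omega), fun u hu => ?_⟩
      exact M.tr (Uv_dist hu hr) g2 (by omega)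

/-- far pair with both ends in `W`, lower `b` (the head of the arc) -/
theorem sv_far (H : Hyp M f) {a b : V} (ha : InW M f a) (hb : InW M f b) (hab : b ≠ a)
    (hn : Far M f a b) : Sv M f {a, b} {b} := by
  obtain ⟨x, r, hr, hrx, hxa, hxb⟩ := hn
  have hfa := H.two a ha.1
  have hfb := H.two b hb.1
  obtain ⟨c, g1, g2, g3, g4⟩ := M.pos3 (s := f b - 1) (M.refl a) (M.symm hxa) hxb (by omega)
  have hsum : ∑ x ∈ ({a, b} : Finset V), f x = f a + f b := Finset.sum_pair (Ne.symm hab)
  refine sv_ball H (c := c) ⟨a, by simp⟩ (by simp) ?_ ?_ ?_ ?_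
  · intro x hx
    simp only [Finset.mem_insert, Finset.mem_singleton] at hx
    rcases hx with rfl | rfl
    exacts [ha.1, hb.1]
  · intro x hx hxa
    have : x = a := by
      simp only [Finset.mem_insert, Finset.mem_singleton] at hx hxa
      tauto
    subst this
    exact ⟨_, g1, by omega⟩
  · intro x hx
    rw [Finset.mem_singleton] at hx
    subst hx
    exact ⟨_, g4, by omega⟩
  · intro y hy
    rw [hsum]
    simp only [Finset.mem_insert, Finset.mem_singleton] at hy
    rcases hy with rfl | rfl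
    · left
      exact ⟨_, g1, by omega⟩
    · right
      exact near_cover hb hr hrx g3 (by omega)

end Pool.Agent.H83.Bc
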